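import Pool.Agent.K9h16.RO.Grp
import Pool.Agent.K9h16.GK.ThrC

/-!
The product of the alternating groups from less.
-/

set_option autoImplicit false
set_option linter.all false

open Polynomial
open scoped Classical

namespace Pool.Agent.K9h16.RO

open Pool.Agent.K9h16.PT Pool.Agent.K9h16.QT Pool.Agent.K9h16.GK Pool.Agent.X243.Gen
  Pool.Agent.X243.Tate Pool.Agent.X243.Sol

/-- There is an automorphism which fixes the roots of `P`, and moves a root of `Q`. -/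
def MvG {k : Type} [Field k] (P Q : k[X]) : Prop :=
  ∀ (E : Type) [Field E] [Algebra k E] [FiniteDimensional k E] [IsGalois k E],
    (P.map (algebraMap k E)).Splits → (Q.map (algebraMap k E)).Splits →
    ∃ σ : E ≃ₐ[k] E, (∀ θ : E, aeval θ P = 0 → σ θ = θ) ∧ ∃ η : E, aeval η Q = 0 ∧ σ η ≠ η

section alt

variable {k Ω : Type} [Field k] [Field Ω] [Algebra k Ω] [IsSepClosure k Ω] {P Q D : k[X]}

theorem mv_acts (hP : P.Separable) (hQ : Q.Separable) (h : MvG P Q) :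
    ∃ (σ : Ω ≃ₐ[k] Ω) (π : Equiv.Perm (Q.rootSet Ω)) (x : Q.rootSet Ω), π x ≠ x ∧
      (∀ θ : Ω, aeval θ P = 0 → σ θ = θ) ∧ Acts σ π := by
  obtain ⟨E, hE1, hE2, hE⟩ := exists_E (k := k) (P.rootSet Ω ∪ Q.rootSet Ω)
    ((rootSet_finite P Ω).union (rootSet_finite Q Ω))
  haveI := hE1
  haveI := hE2
  have hEP : ∀ θ ∈ P.rootSet Ω, θ ∈ E := fun θ h => hE θ (Or.inl h)
  have hEQ : ∀ θ ∈ Q.rootSet Ω, θ ∈ E := fun θ h => hE θ (Or.inr h)
  obtain ⟨σ, hσ, η, hη, hne⟩ := h E (splits_E hP E hEP) (splits_E hQ E hEQ)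
  obtain ⟨τ, hτ⟩ := lift_E E σ
  have hη' : aeval (η : Ω) Q = 0 := by
    have h1 : aeval (algebraMap E Ω η) Q = algebraMap E Ω (aeval η Q) :=
      aeval_algebraMap_apply Ω η Q
    rw [hη, map_zero] at h1
    exact h1
  refine ⟨τ, MulAction.toPermHom (Ω ≃ₐ[k] Ω) (Q.rootSet Ω) τ,
    ⟨(η : Ω), mem_rootSet.2 ⟨hQ.ne_zero, hη'⟩⟩, fun h1 => ?_, fun θ hθ => ?_, fun i => rfl⟩
  · have h3 : τ (η : Ω) = η := congrArg Subtype.val h1
    rw [hτ] at h3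
    exact hne (Subtype.ext h3)
  · have h1 : θ ∈ E := hEP θ ((mem_rs hP.ne_zero).2 hθ)
    have h2 : aeval (⟨θ, h1⟩ : E) P = 0 := by
      apply (algebraMap E Ω).injective
      rw [map_zero, ← aeval_algebraMap_apply]
      exact hθ
    have h3 := hτ ⟨θ, h1⟩
    rw [hσ _ h2] at h3
    exact h3

theorem tc_swap {I : Type} [Fintype I] {inst : DecidableEq I} {x y z : I} (h1 : z ≠ y)
    (h2 : z ≠ x) (h3 : y ≠ x) : @Equiv.Perm.IsThreeCycle I _ inst (sw z y * sw z x) := by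
  rw [sw_eq (inst := inst), sw_eq (inst := inst)]
  exact Equiv.Perm.isThreeCycle_swap_mul_swap_same h1 h2 h3

theorem sw_comm {I : Type} (x y : I) : sw x y = sw y x := Equiv.swap_comm x y

/-- A cycle of length three which fixes the roots of `Q` and `D`. -/
theorem three_of (sP : P.Separable) (sQ : Q.Separable) (sD : D.Separable) (h5 : 5 ≤ P.natDegree)
    (fP : FullG P) (hDP : PairG D P) (hm : MvG Q P) :
    ∃ (f : Equiv.Perm (P.rootSet Ω)) (τ : Ω ≃ₐ[k] Ω), f.IsThreeCycle ∧ Acts τ f ∧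
      (∀ θ : Ω, aeval θ Q = 0 → τ θ = θ) ∧ ∀ θ : Ω, aeval θ D = 0 → τ θ = θ := by
  haveI : IsSepClosed Ω := IsSepClosure.sep_closed k
  obtain ⟨σ0, π0, x, hx, f0, a0⟩ := mv_acts (Ω := Ω) sQ sP hm
  obtain ⟨y, hy⟩ : ∃ y, y = π0 x := ⟨_, rfl⟩
  have hyx : y ≠ x := by rw [hy]; exact hx
  have pick : ∀ u v w w' : P.rootSet Ω, ∃ z : P.rootSet Ω, z ≠ u ∧ z ≠ v ∧ (z ≠ w ∧ (w = w' ∨ z ≠ w') ∨
      z ≠ w ∧ z ≠ w') := by
    intro u v w w'
    obtain ⟨z1, z2, z3, r1, r2, r3, n12, n13, n23, m1, m1', m2, m2', m3, m3'⟩ :=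
      five_of (Ω := Ω) sP h5 (u : Ω) v
    have mk : ∀ y : Ω, aeval y P = 0 → y ∈ P.rootSet Ω := fun y hy =>
      mem_rootSet.2 ⟨sP.ne_zero, hy⟩
    have ne' : ∀ {a : Ω} (ha : aeval a P = 0) {b : P.rootSet Ω}, a ≠ (b : Ω) →
        (⟨a, mk a ha⟩ : P.rootSet Ω) ≠ b := fun ha b h e => h (congrArg Subtype.val e)
    by_cases e1 : z1 = (w : Ω)
    · by_cases e2 : z2 = (w' : Ω)
      · refine ⟨⟨z3, mk z3 r3⟩, ne' r3 m3, ne' r3 m3', Or.inr ⟨ne' r3 (e1 ▸ n13.symm),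
          ne' r3 (e2 ▸ n23.symm)⟩⟩
      · exact ⟨⟨z2, mk z2 r2⟩, ne' r2 m2, ne' r2 m2', Or.inr ⟨ne' r2 (e1 ▸ n12.symm), ne' r2 e2⟩⟩
    · by_cases e2 : z1 = (w' : Ω)
      · by_cases e3 : z2 = (w : Ω)
        · exact ⟨⟨z3, mk z3 r3⟩, ne' r3 m3, ne' r3 m3', Or.inr ⟨ne' r3 (e3 ▸ n23.symm),
            ne' r3 (e2 ▸ n13.symm)⟩⟩
        · exact ⟨⟨z2, mk z2 r2⟩, ne' r2 m2, ne' r2 m2', Or.inr ⟨ne' r2 e3,
            ne' r2 (e2 ▸ n12.symm)⟩⟩
      · exact ⟨⟨z1, mk z1 r1⟩, ne' r1 m1, ne' r1 m1', Or.inr ⟨ne' r1 e1, ne' r1 e2⟩⟩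
  have pick' : ∀ u v w w' : P.rootSet Ω, ∃ z : P.rootSet Ω, z ≠ u ∧ z ≠ v ∧ z ≠ w ∧ z ≠ w' := by
    intro u v w w'
    obtain ⟨z, h1, h3, h4⟩ := pick u v w w'
    refine ⟨z, h1, h3, ?_⟩
    rcases h4 with ⟨h4, h6 | h6⟩ | h4
    · exact ⟨h4, h6 ▸ h4⟩
    · exact ⟨h4, h6⟩
    · exact h4
  obtain ⟨z, zx, zy, zi, -⟩ := pick' x y (π0⁻¹ x) x
  obtain ⟨t, t1, t2⟩ := all_swaps (Ω := Ω) sD sP fP hDP (x := x) (y := z) zx.symm
  obtain ⟨g, hg⟩ : ∃ g, g = π0 z := ⟨_, rfl⟩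
  have gy : g ≠ y := by
    rw [hg, hy]
    exact fun e => zx (π0.injective e)
  have gx : g ≠ x := by
    rw [hg]
    intro e
    apply zi
    rw [← e]
    exact (π0.symm_apply_apply z).symm
  obtain ⟨κ, hκ⟩ : ∃ κ, κ = σ0 * t * σ0⁻¹ * t⁻¹ := ⟨_, rfl⟩
  have κa : Acts κ (sw y g * sw x z) := by
    have h1 : Acts κ (π0 * sw x z * π0⁻¹ * (sw x z)⁻¹) := by
      rw [hκ]
      exact ((a0.mul t2).mul a0.inv).mul t2.inv
    rw [sw_conj, sw_inv, ← hy, ← hg] at h1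
    exact h1
  have κQ : ∀ θ : Ω, aeval θ Q = 0 → κ θ = θ := by
    intro θ hθ
    rw [hκ]
    show σ0 (t (σ0⁻¹ (t⁻¹ θ))) = θ
    rw [fix_inv (f0 _ (root_map t⁻¹ hθ))]
    have : t (t⁻¹ θ) = θ := t.apply_symm_apply θ
    rw [this, f0 θ hθ]
  have κD : ∀ θ : Ω, aeval θ D = 0 → κ θ = θ := by
    intro θ hθ
    rw [hκ]
    show σ0 (t (σ0⁻¹ (t⁻¹ θ))) = θ
    rw [fix_inv (t1 θ hθ), t1 _ (root_map σ0⁻¹ hθ)]
    exact σ0.apply_symm_apply θ
  by_cases hgz : g = z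
  · refine ⟨_, κ, ?_, κa, κQ, κD⟩
    rw [hgz, sw_comm y z, sw_comm x z]
    exact tc_swap zy zx hyx
  · obtain ⟨r, rx, ry, rz, rg⟩ := pick' x y z g
    obtain ⟨s, hs⟩ := full_acts (Ω := Ω) sP fP (sw x r)
    obtain ⟨f, hf⟩ : ∃ f, f = sw y g * sw x z := ⟨_, rfl⟩
    rw [← hf] at κa
    have fx : f x = z := by
      rw [hf]
      show sw y g (sw x z x) = z
      rw [sw_apply x z x, if_pos rfl, sw_apply, if_neg zy, if_neg (Ne.symm hgz)]
    have fr : f r = r := by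
      rw [hf]
      show sw y g (sw x z r) = r
      rw [sw_apply x z r, if_neg rx, if_neg rz, sw_apply, if_neg ry, if_neg rg]
    have h1 : Acts (κ * s * κ⁻¹ * s⁻¹) (f * sw x r * f⁻¹ * (sw x r)⁻¹) :=
      ((κa.mul hs).mul κa.inv).mul hs.inv
    rw [sw_conj, sw_inv, fx, fr] at h1
    have fixes : ∀ R' : k[X], (∀ θ : Ω, aeval θ R' = 0 → κ θ = θ) →
        ∀ θ : Ω, aeval θ R' = 0 → (κ * s * κ⁻¹ * s⁻¹) θ = θ := by
      intro R' hR' θ hθ
      show κ (s (κ⁻¹ (s⁻¹ θ))) = θ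
      rw [fix_inv (hR' _ (root_map s⁻¹ hθ))]
      have : s (s⁻¹ θ) = θ := s.apply_symm_apply θ
      rw [this, hR' θ hθ]
    refine ⟨_, _, ?_, h1, fixes Q κQ, fixes D κD⟩
    rw [sw_comm z r, sw_comm x r]
    exact tc_swap rz rx zx

/-- All the cycles of length three. -/
theorem threes (sP : P.Separable) (fP : FullG P)
    (h : ∃ (f : Equiv.Perm (P.rootSet Ω)) (τ : Ω ≃ₐ[k] Ω), f.IsThreeCycle ∧ Acts τ f ∧
      (∀ θ : Ω, aeval θ Q = 0 → τ θ = θ) ∧ ∀ θ : Ω, aeval θ D = 0 → τ θ = θ)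
    {g : Equiv.Perm (P.rootSet Ω)} (hg : g.IsThreeCycle) :
    ∃ τ : Ω ≃ₐ[k] Ω, Acts τ g ∧ (∀ θ : Ω, aeval θ Q = 0 → τ θ = θ) ∧
      ∀ θ : Ω, aeval θ D = 0 → τ θ = θ := by
  obtain ⟨f, τ, hf, h1, h2, h3⟩ := h
  have hc : IsConj f g := Equiv.Perm.isConj_iff_cycleType_eq.2 (by
    rw [hf.cycleType, hg.cycleType])
  obtain ⟨c, hc⟩ := isConj_iff.1 hc
  obtain ⟨s, hs⟩ := full_acts (Ω := Ω) sP fP c
  have fixes : ∀ R' : k[X], (∀ θ : Ω, aeval θ R' = 0 → τ θ = θ) →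
      ∀ θ : Ω, aeval θ R' = 0 → (s * τ * s⁻¹) θ = θ := by
    intro R' hR' θ hθ
    show s (τ (s⁻¹ θ)) = θ
    rw [hR' _ (root_map s⁻¹ hθ)]
    exact s.apply_symm_apply θ
  refine ⟨s * τ * s⁻¹, ?_, fixes Q h2, fixes D h3⟩
  rw [← hc]
  exact (hs.mul h1).mul hs.inv

/-- The even permutations of the roots of `P`, with the roots of `Q` and `D` fixed. -/
theorem even_fix' {E : Type} [Field E] [Algebra k E] [Normal k E] (sP : P.Separable)
    (hsP : (P.map (algebraMap k E)).Splits) (fP : FullG P)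
    [Algebra E Ω] [IsScalarTower k E Ω]
    (h : ∃ (f : Equiv.Perm (P.rootSet Ω)) (τ : Ω ≃ₐ[k] Ω), f.IsThreeCycle ∧ Acts τ f ∧
      (∀ θ : Ω, aeval θ Q = 0 → τ θ = θ) ∧ ∀ θ : Ω, aeval θ D = 0 → τ θ = θ)
    (π : Equiv.Perm (P.rootSet E)) (hπ : Equiv.Perm.sign π = 1) :
    ∃ σ : E ≃ₐ[k] E, (∀ i : P.rootSet E, σ (i : E) = (π i : P.rootSet E)) ∧
      (∀ θ : E, aeval θ Q = 0 → σ θ = θ) ∧ ∀ θ : E, aeval θ D = 0 → σ θ = θ := by
  haveI : IsSepClosed Ω := IsSepClosure.sep_closed k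
  obtain ⟨e, he⟩ := rs_equiv (Ω := Ω) hsP sP.ne_zero
  have hmem : π ∈ Subgroup.closure {σ : Equiv.Perm (P.rootSet E) | σ.IsThreeCycle} := by
    rw [Equiv.Perm.closure_three_cycles_eq_alternating, Equiv.Perm.mem_alternatingGroup]
    exact hπ
  clear hπ
  induction hmem using Subgroup.closure_induction with
  | mem g hg =>
    obtain ⟨g', hg'⟩ : ∃ g' : Equiv.Perm (P.rootSet Ω), g' = (e.symm.trans g).trans e := ⟨_, rfl⟩
    have hg3 : g'.IsThreeCycle := by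
      rw [← card_support_eq_three_iff]
      have h1 : g'.support = g.support.map e.toEmbedding := by
        ext i
        rw [Equiv.Perm.mem_support, Finset.mem_map_equiv, Equiv.Perm.mem_support, hg']
        show e (g (e.symm i)) ≠ i ↔ g (e.symm i) ≠ e.symm i
        exact not_congr e.apply_eq_iff_eq_symm_apply
      rw [h1, Finset.card_map]
      exact hg.card_support
    obtain ⟨τ, t1, t2, t3⟩ := threes (Q := Q) (D := D) sP fP h hg3
    obtain ⟨ρ, hρ⟩ := down (E := E) τ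
    refine ⟨ρ, fun i => ?_, fun θ hθ => ?_, fun θ hθ => ?_⟩
    · apply (algebraMap E Ω).injective
      have h3 := t1 (e i)
      rw [hρ, ← he, h3, ← he, hg']
      simp
    · apply (algebraMap E Ω).injective
      rw [hρ]
      apply t2
      rw [aeval_algebraMap_apply, hθ, map_zero]
    · apply (algebraMap E Ω).injective
      rw [hρ]
      apply t3
      rw [aeval_algebraMap_apply, hθ, map_zero]
  | one => exact ⟨1, fun i => rfl, fun θ _ => rfl, fun θ _ => rfl⟩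
  | mul g g' _ _ ih ih' =>
    obtain ⟨σ, s1, s2, s3⟩ := ih
    obtain ⟨τ, t1, t2, t3⟩ := ih'
    refine ⟨σ * τ, fun i => ?_, fun θ hθ => ?_, fun θ hθ => ?_⟩
    · show σ (τ i) = _
      rw [t1, s1]
      rfl
    · show σ (τ θ) = θ
      rw [t2 θ hθ, s2 θ hθ]
    · show σ (τ θ) = θ
      rw [t3 θ hθ, s3 θ hθ]
  | inv g _ ih =>
    obtain ⟨σ, s1, s2, s3⟩ := ih
    refine ⟨σ⁻¹, fun i => ?_, fun θ hθ => ?_, fun θ hθ => ?_⟩
    · have h1 := s1 (g⁻¹ i)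
      have h2 : g (g⁻¹ i) = i := g.apply_symm_apply i
      rw [h2] at h1
      rw [← h1]
      exact σ.symm_apply_apply _
    · have h1 : σ⁻¹ (σ θ) = θ := σ.symm_apply_apply θ
      rw [s2 θ hθ] at h1
      exact h1
    · have h1 : σ⁻¹ (σ θ) = θ := σ.symm_apply_apply θ
      rw [s3 θ hθ] at h1
      exact h1

end alt

section main

variable {k : Type} [Field k] {p q d : k[X]}

theorem alt_of' (sp : p.Separable) (sq : q.Separable) (sd : d.Separable) (hp : 5 ≤ p.natDegree)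
    (hq : 5 ≤ q.natDegree) (fp : FullG p) (fq : FullG q) (fd : FullG d) (h1 : PairG d p)
    (h2 : PairG d q) (h3 : PairG p d) (h4 : PairG q d) (m1 : MvG q p) (m2 : MvG p q) :
    ContainsAlternating ![p, q, d] := by
  have h0 : ∏ i, (![p, q, d] : Fin 3 → k[X]) i ≠ 0 := by
    rw [Finset.prod_ne_zero_iff]
    intro i _
    fin_cases i
    · exact sp.ne_zero
    · exact sq.ne_zero
    · exact sd.ne_zero
  have hspl : ∀ i : Fin 3, (((![p, q, d] : Fin 3 → k[X]) i).map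
      (algebraMap k (SeparableClosure k))).Splits := by
    intro i
    fin_cases i
    · exact IsSepClosed.splits_of_separable _ sp.map
    · exact IsSepClosed.splits_of_separable _ sq.map
    · exact IsSepClosed.splits_of_separable _ sd.map
  obtain ⟨_, _⟩ := exists_alg (spl_prod hspl)
  intro π hπ
  obtain ⟨σ0, s1, s2, s3⟩ := even_fix' (Ω := SeparableClosure k) (Q := q) (D := d) sp (spl_fam h0 0)
    fp (three_of sp sq sd hp fp h1 m1) (π 0) (hπ 0)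
  obtain ⟨σ1, t1, t2, t3⟩ := even_fix' (Ω := SeparableClosure k) (Q := p) (D := d) sq (spl_fam h0 1)
    fq (three_of sq sp sd hq fq h2 m2) (π 1) (hπ 1)
  obtain ⟨σ2, u1, u2, u3⟩ := even_fix (Ω := SeparableClosure k) sd sp sq (spl_fam h0 2) fd h3 h4
    (π 2) (hπ 2)
  refine ⟨σ0 * σ1 * σ2, fun i => ?_⟩
  fin_cases i
  · intro θ
    show σ0 (σ1 (σ2 θ)) = _
    have h1 := aeval_eq_zero_of_mem_rootSet θ.2
    rw [u2 _ h1, t2 _ h1]
    exact s1 θ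
  · intro θ
    show σ0 (σ1 (σ2 θ)) = _
    have h1 := aeval_eq_zero_of_mem_rootSet θ.2
    rw [u3 _ h1]
    have h3 := t1 θ
    rw [h3]
    exact s2 _ (aeval_eq_zero_of_mem_rootSet (π 1 θ).2)
  · intro θ
    obtain ⟨y, hy⟩ : ∃ y : (∏ i, (![p, q, d] : Fin 3 → k[X]) i).SplittingField,
      y = (π 2 θ : (∏ i, (![p, q, d] : Fin 3 → k[X]) i).SplittingField) := ⟨_, rfl⟩
    have hy0 : aeval y d = 0 := by
      rw [hy]
      exact aeval_eq_zero_of_mem_rootSet (π 2 θ).2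
    have h3 : σ2 θ = y := by
      rw [hy]
      exact u1 θ
    show σ0 (σ1 (σ2 θ)) = (π 2 θ : (∏ i, (![p, q, d] : Fin 3 → k[X]) i).SplittingField)
    rw [h3, t3 y hy0, ← hy]
    exact s3 y hy0

end main

end Pool.Agent.K9h16.RO
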