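import Pool.Agent.K9h16.RO.Frm
import Pool.Agent.K9h16.QT.Fing

/-!
The number of the pairs such that the first polynomial splits and the second one does not.
-/

set_option autoImplicit false
set_option linter.all false

open Polynomial
open scoped Classical

namespace Pool.Agent.K9h16.RO

open Pool.Agent.K9h16.PT Pool.Agent.K9h16.QT Pool.Agent.X243.Gen Pool.Agent.X243.Tate
  Pool.Agent.X243.Sol
open Pool.Agent.Y160.T3

section cnt

variable {F : Type} [Field F] [Fintype F] {m : ℕ}

/-- The second polynomial. -/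
noncomputable def vv (u : Fin (2 * m + 1) → F) (s : Fin (m + 1) → F) : F[X] := bF u + bF s + 1

theorem vv_nd (hm : 1 ≤ m) {u : Fin (2 * m + 1) → F} (hu : (bF u).natDegree = 2 * m)
    (s : Fin (m + 1) → F) : (vv u s).natDegree = 2 * m := by
  have h1 : (bF s + 1 : F[X]).natDegree ≤ m :=
    (natDegree_add_le _ _).trans (max_le (bF_nd s) (by rw [natDegree_one]; exact Nat.zero_le _))
  rw [vv, add_assoc, natDegree_add_eq_left_of_natDegree_lt (by rw [hu]; omega), hu]

/-- The roots of the second polynomial. -/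
noncomputable def rts (u : Fin (2 * m + 1) → F) (s : Fin (m + 1) → F) : Finset F :=
  Finset.univ.filter (fun x => (vv u s).eval x = 0)

theorem ev_bF (s : Fin (m + 1) → F) (x : F) :
    (bF s).eval x = s 0 + ∑ j : Fin m, s j.succ * x ^ ((j.succ : Fin (m + 1)) : ℕ) := by
  rw [bF, eval_finset_sum, Fin.sum_univ_succ]
  simp

theorem fib (u : Fin (2 * m + 1) → F) (x : F) :
    (Finset.univ.filter (fun s : Fin (m + 1) → F => (vv u s).eval x = 0)).card ≤
      Fintype.card F ^ m := by
  have h : (Finset.univ.filter (fun s : Fin (m + 1) → F => (vv u s).eval x = 0)).card ≤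
      (Finset.univ : Finset (Fin m → F)).card := by
    apply Finset.card_le_card_of_injOn (fun s j => s (Fin.succ j)) (fun s _ => Finset.mem_univ _)
    intro s hs s' hs' e
    rw [Finset.mem_coe, Finset.mem_filter] at hs hs'
    have h1 := hs.2
    have h3 := hs'.2
    rw [vv, eval_add, eval_add] at h1 h3
    have h4 : (bF s).eval x = (bF s').eval x := by linear_combination h1 - h3
    rw [ev_bF, ev_bF] at h4
    have e' : ∀ j : Fin m, s j.succ = s' j.succ := fun j => congrFun e j
    have h5 : s 0 = s' 0 := by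
      have h6 : ∑ j : Fin m, s j.succ * x ^ ((j.succ : Fin (m + 1)) : ℕ) =
          ∑ j : Fin m, s' j.succ * x ^ ((j.succ : Fin (m + 1)) : ℕ) :=
        Finset.sum_congr rfl fun j _ => by rw [e' j]
      rw [h6] at h4
      exact add_right_cancel h4
    funext j
    refine Fin.cases h5 e' j
  rwa [Finset.card_univ, Fintype.card_fun, Fintype.card_fin] at h

theorem sum_rts (u : Fin (2 * m + 1) → F) :
    ∑ s : Fin (m + 1) → F, (rts u s).card ≤ Fintype.card F ^ (m + 1) := by
  have h : ∑ s : Fin (m + 1) → F, (rts u s).card =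
      ∑ x : F, (Finset.univ.filter (fun s : Fin (m + 1) → F => (vv u s).eval x = 0)).card := by
    simp only [rts, Finset.card_filter]
    exact Finset.sum_comm
  rw [h]
  calc _ ≤ ∑ x : F, Fintype.card F ^ m := Finset.sum_le_sum fun x _ => fib u x
    _ = _ := by rw [Finset.sum_const, Finset.card_univ, smul_eq_mul, pow_succ']

theorem not_ns (hm : 1 ≤ m) {u : Fin (2 * m + 1) → F} (hu : (bF u).natDegree = 2 * m)
    {s : Fin (m + 1) → F} (h : ¬ NS (vv u s)) :
    2 ≤ (rts u s).card ∨ ∃ d x : F, vv u s = C d * (X - C x) ^ (2 * m) := by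
  unfold NS at h
  push Not at h
  obtain ⟨d, M, hM⟩ := h
  by_cases h2 : 2 ≤ (rts u s).card
  · exact Or.inl h2
  · right
    have hd : d ≠ 0 := by
      rintro rfl
      have := vv_nd hm hu s
      rw [hM, C_0, zero_mul, natDegree_zero] at this
      omega
    have hc : Multiset.card M = 2 * m := by
      rw [← vv_nd hm hu s, hM, natDegree_C_mul hd, natDegree_multiset_prod_X_sub_C_eq_card]
    have hmem : ∀ x ∈ M, x ∈ rts u s := by
      intro x hx
      rw [rts, Finset.mem_filter]
      refine ⟨Finset.mem_univ _, ?_⟩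
      rw [hM, eval_mul, eval_multiset_prod, Multiset.prod_eq_zero, mul_zero]
      rw [Multiset.mem_map]
      exact ⟨X - C x, Multiset.mem_map.2 ⟨x, hx, rfl⟩, by rw [eval_sub, eval_X, eval_C, sub_self]⟩
    obtain ⟨x, hx⟩ : ∃ x, x ∈ M := Multiset.exists_mem_of_ne_zero (by
      rintro rfl
      rw [Multiset.card_zero] at hc
      omega)
    have hall : ∀ y ∈ M, y = x := fun y hy =>
      Finset.card_le_one.1 (by omega) y (hmem y hy) x (hmem x hx)
    have hrep : M = Multiset.replicate (2 * m) x := Multiset.eq_replicate.2 ⟨hc, hall⟩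
    exact ⟨d, x, by rw [hM, hrep, Multiset.map_replicate, Multiset.prod_replicate]⟩

theorem card_B2 (u : Fin (2 * m + 1) → F) :
    (Finset.univ.filter (fun s : Fin (m + 1) → F => ∃ d x : F,
      vv u s = C d * (X - C x) ^ (2 * m))).card ≤ Fintype.card F ^ 2 := by
  have hsub : Finset.univ.filter (fun s : Fin (m + 1) → F => ∃ d x : F,
      vv u s = C d * (X - C x) ^ (2 * m)) ⊆ (Finset.univ : Finset (F × F)).image
        (fun z => fun j : Fin (m + 1) => (C z.1 * (X - C z.2) ^ (2 * m) - bF u - 1).coeff j) := by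
    intro s hs
    rw [Finset.mem_filter] at hs
    obtain ⟨-, d, x, e⟩ := hs
    rw [Finset.mem_image]
    refine ⟨(d, x), Finset.mem_univ _, ?_⟩
    funext j
    show (C d * (X - C x) ^ (2 * m) - bF u - 1).coeff j = s j
    rw [← e, vv, ← bF_coeff s j]
    congr 1
    ring
  refine (Finset.card_le_card hsub).trans (Finset.card_image_le.trans (le_of_eq ?_))
  rw [Finset.card_univ, Fintype.card_prod, pow_two]

theorem ns_card (hm : 3 ≤ m) {u : Fin (2 * m + 1) → F} (hu : (bF u).natDegree = 2 * m) :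
    Fintype.card F ^ (m + 1) ≤
      4 * (Finset.univ.filter (fun s : Fin (m + 1) → F => NS (vv u s))).card := by
  obtain ⟨q, hq⟩ : ∃ q, q = Fintype.card F := ⟨_, rfl⟩
  have hq2 : 2 ≤ q := by
    rw [hq]
    exact Fintype.one_lt_card
  obtain ⟨A, hA⟩ : ∃ A, A = Finset.univ.filter (fun s : Fin (m + 1) → F => NS (vv u s)) := ⟨_, rfl⟩
  obtain ⟨Bc, hBc⟩ : ∃ B, B = Finset.univ.filter (fun s : Fin (m + 1) → F => ¬ NS (vv u s)) :=
    ⟨_, rfl⟩
  obtain ⟨B1, hB1⟩ : ∃ B, B = Finset.univ.filter (fun s : Fin (m + 1) → F => 2 ≤ (rts u s).card) :=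
    ⟨_, rfl⟩
  obtain ⟨B2, hB2⟩ : ∃ B, B = Finset.univ.filter (fun s : Fin (m + 1) → F => ∃ d x : F,
      vv u s = C d * (X - C x) ^ (2 * m)) := ⟨_, rfl⟩
  have h1 : A.card + Bc.card = q ^ (m + 1) := by
    rw [hA, hBc, Finset.card_filter_add_card_filter_not, Finset.card_univ, Fintype.card_fun,
      Fintype.card_fin, hq]
  have h2 : Bc.card ≤ B1.card + B2.card := by
    refine (Finset.card_le_card ?_).trans (Finset.card_union_le B1 B2)
    intro s hs
    rw [hBc, Finset.mem_filter] at hs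
    rw [Finset.mem_union, hB1, hB2, Finset.mem_filter, Finset.mem_filter]
    rcases not_ns (by omega) hu hs.2 with h | h
    · exact Or.inl ⟨Finset.mem_univ _, h⟩
    · exact Or.inr ⟨Finset.mem_univ _, h⟩
  have h3 : B2.card ≤ q ^ 2 := by
    rw [hB2, hq]
    exact card_B2 u
  have h4 : B1.card * 2 ≤ q ^ (m + 1) := by
    have h5 : B1.card * 2 ≤ ∑ s ∈ B1, (rts u s).card := by
      rw [← smul_eq_mul]
      apply Finset.card_nsmul_le_sum
      intro s hs
      rw [hB1, Finset.mem_filter] at hs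
      exact hs.2
    refine h5.trans ((Finset.sum_le_sum_of_subset (Finset.subset_univ B1)).trans ?_)
    rw [hq]
    exact sum_rts u
  have h6 : 4 * q ^ 2 ≤ q ^ (m + 1) := by
    have h7 : q ^ 2 * q ^ 2 ≤ q ^ (m + 1) := by
      rw [← pow_add]
      exact Nat.pow_le_pow_right (by omega) (by omega)
    have h8 : 4 ≤ q ^ 2 := by nlinarith
    exact (Nat.mul_le_mul_right _ h8).trans h7
  rw [← hA, ← hq]
  omega

theorem T_card (hm : 3 ≤ m) (hq : 4 * m + 2 ≤ Fintype.card F) :
    Fintype.card F ^ (3 * m + 2) ≤ 4 * D4 (2 * m) *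
      (Finset.univ.filter (fun x : (Fin (m + 1) → F) × (Fin (2 * m + 1) → F) =>
        S4 (2 * m) (bF x.2) ∧ NS (vv x.2 x.1))).card := by
  obtain ⟨T, hT⟩ : ∃ T, T = Finset.univ.filter (fun x : (Fin (m + 1) → F) × (Fin (2 * m + 1) → F) =>
        S4 (2 * m) (bF x.2) ∧ NS (vv x.2 x.1)) := ⟨_, rfl⟩
  obtain ⟨T4, hT4⟩ : ∃ T, T = Finset.univ.filter (fun u : Fin (2 * m + 1) → F =>
    S4 (2 * m) (bF u)) := ⟨_, rfl⟩
  have e4 : Fintype.card F ^ (2 * m + 1) ≤ D4 (2 * m) * T4.card := by
    have h := E4_card (F := F) (N := 2 * m) (by omega) (by omega)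
    have h1 : (E4 F (2 * m)).ncard = T4.card := by
      rw [← Set.ncard_coe_finset]
      congr 1
      ext u
      rw [hT4, Finset.mem_coe, Finset.mem_filter]
      exact ⟨fun h => ⟨Finset.mem_univ _, h⟩, fun h => h.2⟩
    rwa [h1] at h
  have hmaps : Set.MapsTo (Prod.snd : (Fin (m + 1) → F) × (Fin (2 * m + 1) → F) → _) T T4 := by
    intro x hx
    rw [Finset.mem_coe, hT, Finset.mem_filter] at hx
    rw [Finset.mem_coe, hT4, Finset.mem_filter]
    exact ⟨Finset.mem_univ _, hx.2.1⟩
  have h1 := Finset.card_eq_sum_card_fiberwise hmaps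
  have h2 : ∀ u ∈ T4, Fintype.card F ^ (m + 1) ≤
      4 * (T.filter (fun x => x.2 = u)).card := by
    intro u hu
    rw [hT4, Finset.mem_filter] at hu
    have hnd : (bF u).natDegree = 2 * m := by
      obtain ⟨d, S, hd, hS, e⟩ := hu.2
      rw [e, natDegree_C_mul hd, natDegree_finset_prod_X_sub_C_eq_card, hS]
    refine (ns_card hm hnd).trans (Nat.mul_le_mul_left 4 ?_)
    apply Finset.card_le_card_of_injOn (fun s => (s, u))
    · intro s hs
      rw [Finset.mem_coe, Finset.mem_filter] at hs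
      rw [Finset.mem_coe, Finset.mem_filter, hT, Finset.mem_filter]
      exact ⟨⟨Finset.mem_univ _, hu.2, hs.2⟩, rfl⟩
    · intro s _ s' _ e
      exact congrArg Prod.fst e
  have h3 : T4.card * Fintype.card F ^ (m + 1) ≤ 4 * T.card := by
    rw [h1, Finset.mul_sum, ← smul_eq_mul]
    exact Finset.card_nsmul_le_sum _ _ _ h2
  calc Fintype.card F ^ (3 * m + 2) = Fintype.card F ^ (2 * m + 1) * Fintype.card F ^ (m + 1) := by
        rw [← pow_add]; congr 1; ring
    _ ≤ D4 (2 * m) * T4.card * Fintype.card F ^ (m + 1) := Nat.mul_le_mul_right _ e4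
    _ = D4 (2 * m) * (T4.card * Fintype.card F ^ (m + 1)) := by ring
    _ ≤ D4 (2 * m) * (4 * T.card) := Nat.mul_le_mul_left _ h3
    _ = 4 * D4 (2 * m) * T.card := by ring
    _ = _ := by rw [hT]

end cnt

end Pool.Agent.K9h16.RO
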