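import Pool.Agent.K9h16.RO.Cnt

/-!
The density of the pairs which satisfy the criterion.
-/

set_option autoImplicit false
set_option linter.all false

open Polynomial
open scoped Classical

namespace Pool.Agent.K9h16.RO

open Pool.Agent.K9h16.PT Pool.Agent.K9h16.QT Pool.Agent.K9h16.GK Pool.Agent.X243.Gen
  Pool.Agent.X243.Tate Pool.Agent.X243.Sol
open Pool.Agent.Y160.T3

section iv

theorem bF_co {R : Type} [CommRing R] {N : ℕ} {f : R[X]} (hf : f.natDegree ≤ N) :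
    bF (fun j : Fin (N + 1) => f.coeff (j : ℕ)) = f :=
  bF_of (degree_le_natDegree.trans_lt (by exact_mod_cast Nat.lt_succ_of_le hf))

variable {R : Type} [CommRing R] {m : ℕ}

/-- The involution `(s, u) ↦ (-s - 2, u + s + 1)`. -/
noncomputable def ivz (z : Fin (m + 1) ⊕ Fin (2 * m + 1) → R) :
    Fin (m + 1) ⊕ Fin (2 * m + 1) → R :=
  Sum.elim (fun j => (-(bF (z ∘ Sum.inl)) - 2).coeff (j : ℕ))
    (fun j => (bF (z ∘ Sum.inr) + bF (z ∘ Sum.inl) + 1).coeff (j : ℕ))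

theorem ivz_l (z : Fin (m + 1) ⊕ Fin (2 * m + 1) → R) :
    bF (ivz z ∘ Sum.inl) = -(bF (z ∘ Sum.inl)) - 2 := by
  have h : (ivz z ∘ Sum.inl : Fin (m + 1) → R) =
      fun j : Fin (m + 1) => (-(bF (z ∘ Sum.inl)) - 2 : R[X]).coeff (j : ℕ) := rfl
  rw [h]
  apply bF_co
  refine (natDegree_sub_le _ _).trans (max_le ?_ ?_)
  · rw [natDegree_neg]
    exact bF_nd _
  · rw [natDegree_ofNat]
    exact Nat.zero_le _

theorem ivz_r (z : Fin (m + 1) ⊕ Fin (2 * m + 1) → R) :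
    bF (ivz z ∘ Sum.inr) = bF (z ∘ Sum.inr) + bF (z ∘ Sum.inl) + 1 := by
  have h : (ivz z ∘ Sum.inr : Fin (2 * m + 1) → R) =
      fun j : Fin (2 * m + 1) => (bF (z ∘ Sum.inr) + bF (z ∘ Sum.inl) + 1 : R[X]).coeff (j : ℕ) :=
    rfl
  rw [h]
  apply bF_co
  refine (natDegree_add_le _ _).trans (max_le ((natDegree_add_le _ _).trans (max_le ?_ ?_)) ?_)
  · exact bF_nd _
  · exact (bF_nd _).trans (by omega)
  · rw [natDegree_one]
    exact Nat.zero_le _

theorem sum_ext {z z' : Fin (m + 1) ⊕ Fin (2 * m + 1) → R}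
    (h1 : bF (z ∘ Sum.inl) = bF (z' ∘ Sum.inl)) (h2 : bF (z ∘ Sum.inr) = bF (z' ∘ Sum.inr)) :
    z = z' := by
  funext j
  rcases j with j | j
  · exact congrFun (bF_inj h1) j
  · exact congrFun (bF_inj h2) j

theorem ivz_ivz (z : Fin (m + 1) ⊕ Fin (2 * m + 1) → R) : ivz (ivz z) = z := by
  apply sum_ext
  · rw [ivz_l, ivz_l]
    ring
  · rw [ivz_r, ivz_r, ivz_l]
    ring

theorem ivz_map {S : Type} [CommRing S] (φ : R →+* S) (z : Fin (m + 1) ⊕ Fin (2 * m + 1) → R) :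
    ivz (fun j => φ (z j)) = fun j => φ (ivz z j) := by
  have hl : ∀ y : Fin (m + 1) ⊕ Fin (2 * m + 1) → R,
      bF ((fun j => φ (y j)) ∘ Sum.inl) = (bF (y ∘ Sum.inl)).map φ := fun y =>
    (bF_map φ (y ∘ Sum.inl)).symm
  have hr : ∀ y : Fin (m + 1) ⊕ Fin (2 * m + 1) → R,
      bF ((fun j => φ (y j)) ∘ Sum.inr) = (bF (y ∘ Sum.inr)).map φ := fun y =>
    (bF_map φ (y ∘ Sum.inr)).symm
  apply sum_ext
  · rw [ivz_l, hl, hl (ivz z), ivz_l, Polynomial.map_sub, Polynomial.map_neg, Polynomial.map_ofNat]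
  · rw [ivz_r, hl, hr, hr (ivz z), ivz_r, Polynomial.map_add, Polynomial.map_add,
      Polynomial.map_one]

theorem ncard_iv (A : Set (Fin (m + 1) ⊕ Fin (2 * m + 1) → R)) :
    {z : Fin (m + 1) ⊕ Fin (2 * m + 1) → R | ivz z ∈ A}.ncard = A.ncard := by
  have hinv : Function.Involutive (ivz (R := R) (m := m)) := ivz_ivz
  have h1 : {z : Fin (m + 1) ⊕ Fin (2 * m + 1) → R | ivz z ∈ A} = ivz ⁻¹' A := rfl
  rw [h1]
  exact Set.ncard_preimage_of_injective_subset_range hinv.injective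
    (fun x _ => hinv.surjective x)

end iv

/-- The events. -/
def Ev (m : ℕ) (s : Option Iq) (R : Type) [CommRing R] :
    Set (Fin (m + 1) ⊕ Fin (2 * m + 1) → R) :=
  match s with
  | some s => Gq m s R
  | none => {z | S4 (2 * m) (bF (z ∘ Sum.inr)) ∧ NS (bF (z ∘ Sum.inr) + bF (z ∘ Sum.inl) + 1)}

/-- The events for both polynomials. -/
def Ev2 (m : ℕ) (s : Bool × Option Iq) (R : Type) [CommRing R] :
    Set (Fin (m + 1) ⊕ Fin (2 * m + 1) → R) :=
  match s with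
  | (true, s) => {z | ivz z ∈ Ev m s R}
  | (false, s) => Ev m s R

theorem Ev_dens {m : ℕ} (hm : 3 ≤ m) : ∃ (B : ℕ) (c : ℝ), 0 < c ∧
    ∀ (F : Type) [Field F] [Finite F], (2 : F) ≠ 0 → B ≤ Nat.card F → ∀ s : Option Iq,
      c * (Nat.card F : ℝ) ^ (Fintype.card (Fin (m + 1) ⊕ Fin (2 * m + 1))) ≤
        ((Ev m s F).ncard : ℝ) := by
  obtain ⟨B1, c1, hc1, h1⟩ := Gq_dens hm
  have hD : (0 : ℝ) < ((D4 (2 * m) : ℕ) : ℝ) := by exact_mod_cast D4_pos _
  refine ⟨max B1 (4 * m + 2), min c1 (1 / (4 * ((D4 (2 * m) : ℕ) : ℝ))),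
    lt_min hc1 (by positivity), fun F _ _ h2 hB s => ?_⟩
  haveI := Fintype.ofFinite F
  rcases s with _ | s
  · have hq : 4 * m + 2 ≤ Fintype.card F := by
      rw [← Nat.card_eq_fintype_card]
      exact (le_max_right _ _).trans hB
    have h3 := T_card hm hq
    have hcard : Fintype.card (Fin (m + 1) ⊕ Fin (2 * m + 1)) = 3 * m + 2 := by
      rw [Fintype.card_sum, Fintype.card_fin, Fintype.card_fin]
      ring
    have h4 : (Ev m none F).ncard =
        (Finset.univ.filter (fun x : (Fin (m + 1) → F) × (Fin (2 * m + 1) → F) =>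
          S4 (2 * m) (bF x.2) ∧ NS (vv x.2 x.1))).card := by
      rw [← pairs_ncard]
      congr 1
      ext z
      rw [Set.mem_setOf_eq, Finset.mem_filter]
      exact ⟨fun h => ⟨Finset.mem_univ _, h⟩, fun h => h.2⟩
    rw [h4, hcard, Nat.card_eq_fintype_card]
    refine (mul_le_mul_of_nonneg_right (min_le_right _ _) (by positivity)).trans ?_
    rw [one_div, inv_mul_le_iff₀ (by positivity)]
    exact_mod_cast h3
  · refine (mul_le_mul_of_nonneg_right (min_le_left _ _) (by positivity)).trans ?_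
    exact h1 F h2 ((le_max_left _ _).trans hB) s

theorem Ev2_dens {m : ℕ} (hm : 3 ≤ m) : ∃ (B : ℕ) (c : ℝ), 0 < c ∧
    ∀ (F : Type) [Field F] [Finite F], (2 : F) ≠ 0 → B ≤ Nat.card F → ∀ s : Bool × Option Iq,
      c * (Nat.card F : ℝ) ^ (Fintype.card (Fin (m + 1) ⊕ Fin (2 * m + 1))) ≤
        ((Ev2 m s F).ncard : ℝ) := by
  obtain ⟨B, c, hc, h⟩ := Ev_dens hm
  refine ⟨B, c, hc, fun F _ _ h2 hB s => ?_⟩
  rcases s with ⟨s1, s⟩
  cases s1
  · exact h F h2 hB s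
  · have h3 : (Ev2 m (true, s) F).ncard = (Ev m s F).ncard := ncard_iv (Ev m s F)
    rw [h3]
    exact h F h2 hB s

section dens

variable {R k : Type} [CommRing R] [IsDomain R] [IsIntegrallyClosed R] [IsNoetherianRing R]
  [Field k] [Algebra R k] [IsFractionRing R k]

variable (R) in
theorem densR [Algebra.FiniteType ℤ R] (hR : ¬ IsField R)
    (h2 : (2 : R) ≠ 0) {m : ℕ} (hm : 3 ≤ m) : ∃ B : ℕ, ∀ (η : ℝ) (hη : 0 < η),
    ∃ M : Ideal R, Finite (R ⧸ M) ∧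
      (1 - η) * (Nat.card (R ⧸ M) : ℝ) ^ (Fintype.card (Fin (m + 1) ⊕ Fin (2 * m + 1))) ≤
      (({x : Fin (m + 1) ⊕ Fin (2 * m + 1) → R ⧸ M | ∀ s : Bool × Option Iq,
        ∃ p ∈ Zg R B, ∀ y : Fin (m + 1) ⊕ Fin (2 * m + 1) → R,
          (∀ j, Ideal.Quotient.mk M (y j) = x j) →
          (fun j => Ideal.Quotient.mk p (y j)) ∈ Ev2 m s (R ⧸ p)}).ncard : ℝ) := by
  obtain ⟨B, c, hc, h⟩ := Ev2_dens hm
  refine ⟨B, fun η hη => ?_⟩
  refine densityG (Zg R B) (Zg_inf R hR h2 _) (fun p hp => hp.1) (fun p hp => hp.2.1)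
    (fun s p => Ev2 m s (R ⧸ p)) hc ?_ η hη
  intro s p hp
  haveI := hp.1
  letI : Field (R ⧸ p) := Ideal.Quotient.field p
  haveI : Finite (R ⧸ p) := hp.2.1
  exact h (R ⧸ p) (Zg_two hp) hp.2.2.1 s

/-- The group theoretic conditions from the events. -/
theorem rc_of (h2 : (2 : R) ≠ 0) {m B : ℕ} (hm : 3 ≤ m) {y : Fin (m + 1) ⊕ Fin (2 * m + 1) → R}
    (h : ∀ s : Bool × Option Iq, ∃ p ∈ Zg R B,
      (fun j => Ideal.Quotient.mk p (y j)) ∈ Ev2 m s (R ⧸ p)) (s u : k[X])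
    (hs : s = (bF (y ∘ Sum.inl)).map (algebraMap R k))
    (hu : u = (bF (y ∘ Sum.inr)).map (algebraMap R k)) :
    RC (1 - u - (u + s + 1)) u (u + s + 1) := by
  have hs' : -s - 2 = (bF (ivz y ∘ Sum.inl)).map (algebraMap R k) := by
    rw [ivz_l, Polynomial.map_sub, Polynomial.map_neg, Polynomial.map_ofNat, hs]
  have hu' : u + s + 1 = (bF (ivz y ∘ Sum.inr)).map (algebraMap R k) := by
    rw [ivz_r, Polynomial.map_add, Polynomial.map_add, Polynomial.map_one, hs, hu]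
  have hmod : ∀ p : Ideal R, ivz (fun j => Ideal.Quotient.mk p (y j)) =
      fun j => Ideal.Quotient.mk p (ivz y j) := fun p => ivz_map (Ideal.Quotient.mk p) y
  obtain ⟨f1, f2, g1⟩ := gc_all (k := k) (y := y) h2 hm (B := B) (fun e => h (false, some e)) s u
    hs hu
  obtain ⟨f3, f4, g2⟩ := gc_all (k := k) (y := ivz y) h2 hm (B := B) (fun e => by
    obtain ⟨p, hp, hp'⟩ := h (true, some e)
    refine ⟨p, hp, ?_⟩
    rw [← hmod]
    exact hp') (-s - 2) (u + s + 1) hs' hu'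
  have nd : ∀ {N : ℕ} (w : Fin (N + 1) → R), (bF w).natDegree ≤ N := fun w => bF_nd w
  have key : ∀ z : Fin (m + 1) ⊕ Fin (2 * m + 1) → R,
      (∃ p ∈ Zg R B, (fun j => Ideal.Quotient.mk p (z j)) ∈ Ev m none (R ⧸ p)) →
      MvG ((bF (z ∘ Sum.inr)).map (algebraMap R k))
        ((bF (ivz z ∘ Sum.inr)).map (algebraMap R k)) := by
    intro z hz
    obtain ⟨p, hp, e⟩ := hz
    haveI := hp.1
    haveI := hp.2.1
    haveI : p.IsMaximal := inferInstance
    letI : Field (R ⧸ p) := Ideal.Quotient.field p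
    obtain ⟨e1, e2⟩ := e
    have hr : bF ((fun j => Ideal.Quotient.mk p (z j)) ∘ Sum.inr) =
        (bF (z ∘ Sum.inr)).map (Ideal.Quotient.mk p) :=
      (bF_map (Ideal.Quotient.mk p) (z ∘ Sum.inr)).symm
    have hl : bF ((fun j => Ideal.Quotient.mk p (z j)) ∘ Sum.inl) =
        (bF (z ∘ Sum.inl)).map (Ideal.Quotient.mk p) :=
      (bF_map (Ideal.Quotient.mk p) (z ∘ Sum.inl)).symm
    have hq : (bF (ivz z ∘ Sum.inr)).map (Ideal.Quotient.mk p) =
        (bF (z ∘ Sum.inr)).map (Ideal.Quotient.mk p) + (bF (z ∘ Sum.inl)).map (Ideal.Quotient.mk p) +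
          1 := by
      rw [ivz_r, Polynomial.map_add, Polynomial.map_add, Polynomial.map_one]
    rw [hr] at e1 e2
    rw [hl, ← hq] at e2
    refine frob_mv p k (N := 2 * m) (nd _) (nd _) e1 ?_ e2
    have hnd : ((bF (z ∘ Sum.inr)).map (Ideal.Quotient.mk p)).natDegree = 2 * m := by
      obtain ⟨d, S, hd, hS, e⟩ := e1
      rw [e, natDegree_C_mul hd, natDegree_finset_prod_X_sub_C_eq_card, hS]
    rw [hq, add_assoc, natDegree_add_eq_left_of_natDegree_lt, hnd]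
    rw [hnd]
    refine lt_of_le_of_lt ((natDegree_add_le _ _).trans (max_le (natDegree_map_le.trans (nd _))
      (by rw [natDegree_one]; exact Nat.zero_le _))) (by omega : m < 2 * m)
  have m2 : MvG u (u + s + 1) := by
    rw [hu', hu]
    exact key y (h (false, none))
  have m1 : MvG (u + s + 1) u := by
    have h3 := key (ivz y) (by
      obtain ⟨p, hp, hp'⟩ := h (true, none)
      refine ⟨p, hp, ?_⟩
      rw [← hmod]
      exact hp')
    rw [ivz_ivz, ← hu', ← hu] at h3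
    exact h3
  have ed : (1 - u - (u + s + 1)) ^ 2 - 4 * (u * (u + s + 1)) = s ^ 2 - 4 * u := by ring
  have ed' : (-s - 2) ^ 2 - 4 * (u + s + 1) = s ^ 2 - 4 * u := by ring
  rw [ed'] at f4
  have g2S := g2.S.sd
  have g2c := g2.S.cop
  have g2bd := g2.bd
  have g2db := g2.db
  have g2mn := g2.mn
  rw [ed'] at g2S g2c g2bd g2db g2mn
  have e1 : u.natDegree = 2 * m := f1.1.2
  have e2 : (s ^ 2 - 4 * u).natDegree = 2 * m := f2.1.2
  have e3 : (u + s + 1).natDegree = 2 * m := f3.1.2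
  have h2k : (2 : k) ≠ 0 := g1.S.h2
  refine ⟨h2k, g1.S.sb, g2.S.sb, ?_, by omega, by omega, ?_, ?_, ?_, ?_⟩
  · rw [ed]
    exact g1.S.sd
  · rw [ed, e2]
    omega
  · rw [ed]
    exact alt_of' g1.S.sb g2.S.sb g1.S.sd (by omega) (by omega) g1.fb g2.fb g1.fd g1.db g2db
      g1.bd g2bd m1 m2
  · rw [ed]
    exact nonsquareMinor_of h2k g1.S.sb g1.S.sd g1.S.cop g1.mn
  · rw [ed]
    exact nonsquareMinor_of h2k g2.S.sb g1.S.sd g2c g2mn

end dens

end Pool.Agent.K9h16.RO
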