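import Pool.Agent.K9h16.RO.Grp
import Pool.Agent.K9h16.BT.Fin2

/-!
The classes and the points of `y² = x (x² + a x + p q)` with `a + p + q = w²`.
-/

set_option autoImplicit false
set_option linter.all false

open Polynomial IsDedekindDomain WeierstrassCurve WeierstrassCurve.Affine
open scoped Classical Pointwise

namespace Pool.Agent.K9h16.RO

open Pool.Agent.TH115.GD Pool.Agent.K9h16.PT Pool.Agent.K9h16.QT Pool.Agent.R939.EI
  Pool.Agent.K9h16.BT

/-- The point `(p, p w)`. -/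
theorem exists_P1 {K : Type} [Field K] {a p q w : K} (h2 : (2 : K) ≠ 0) (hb : p * q ≠ 0)
    (hd : a ^ 2 - 4 * (p * q) ≠ 0) (hw : a + p + q = w ^ 2) :
    ((crvT a (p * q)).baseChange K).toAffine.Nonsingular p (p * w) := by
  refine Pool.Agent.X243.Tate.nonsT h2 hb hd ?_
  linear_combination -p ^ 2 * hw

section dt

variable {K F : Type} [Field K] [Field F] [Algebra K F] {a b : K}

theorem dT_add' [NeZero (2 : K)] {α β : Sep F} (hR : Roots a b (Sep F) α β)
    (P P' : Pt (crvT a b) F) :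
    ∃ u : F, u ≠ 0 ∧ dT (algebraMap K F b) (P + P') =
      u ^ 2 * (dT (algebraMap K F b) P * dT (algebraMap K F b) P') := by
  haveI : IsGalois F (Sep F) := inferInstance
  obtain ⟨H, hH⟩ := halve_sep hR.E (act (crvT a b) (incl K F (Sep F)) P)
  obtain ⟨H', hH'⟩ := halve_sep hR.E (act (crvT a b) (incl K F (Sep F)) P')
  have f1 : ∀ σ : Sep F ≃ₐ[F] Sep F, act (crvT a b) (rs K σ) (H + H) = H + H := fun σ => by
    rw [hH]; exact rs_act_incl (crvT a b) σ P
  have f2 : ∀ σ : Sep F ≃ₐ[F] Sep F, act (crvT a b) (rs K σ) (H' + H') = H' + H' := fun σ => by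
    rw [hH']; exact rs_act_incl (crvT a b) σ P'
  have hHH : (H + H') + (H + H') = act (crvT a b) (incl K F (Sep F)) (P + P') := by
    rw [add_add_add_comm, hH, hH', map_add]
  have f3 : ∀ σ : Sep F ≃ₐ[F] Sep F,
      act (crvT a b) (rs K σ) ((H + H') + (H + H')) = (H + H') + (H + H') :=
    fun σ => by rw [hHH]; exact rs_act_incl (crvT a b) σ _
  have split : ∀ σ : Sep F ≃ₐ[F] Sep F, act (crvT a b) (rs K σ) (H + H') - (H + H') =
      (act (crvT a b) (rs K σ) H - H) + (act (crvT a b) (rs K σ) H' - H') := by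
    intro σ; rw [map_add]; abel
  obtain ⟨u0, hu0, q0⟩ := Pool.Agent.W309.TD.compare (K := F) (h0_ne hR.E (H + H'))
    (mul_ne_zero (h0_ne hR.E H) (h0_ne hR.E H'))
    (fun σ => s0 (act (crvT a b) (rs K σ) (H + H') - (H + H')))
    (fun σ => s0_ne _) (fun σ => (sign0 hR f3 σ).2) (fun σ => by
      rw [map_mul, (sign0 hR f1 σ).2, (sign0 hR f2 σ).2, split,
        (s_addA hR.E (sign0 hR f1 σ).1 (sign0 hR f2 σ).1).1]
      ring)
  have inj := (algebraMap F (Sep F)).injective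
  refine ⟨u0, hu0, ?_⟩
  apply inj
  have e := congrArg (fun x => x ^ 2) q0
  simp only [mul_pow, h0_sq hR.E, hHH, hH, hH', hR.d0_eq] at e
  have hact : ∀ Q : Pt (crvT a b) F, dT (algebraMap K (Sep F) b)
      (act (crvT a b) (incl K F (Sep F)) Q) = algebraMap F (Sep F) (dT (algebraMap K F b) Q) :=
    fun Q => dT_act (crvT a b) (incl K F (Sep F)) (algebraMap K F b) Q
  rw [hact, hact, hact] at e
  rw [map_mul, map_pow, map_mul]
  exact e

end dt

section blk

variable {k k' K F : Type} [Field k] [Field k'] [Algebra k k'] [Field K] [Algebra k[X] K]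
    [Field F] [Algebra k'[X] F] [IsFractionRing k'[X] F] [Algebra K F]
    (hT : IsTower k k' K F) {a p q : k[X]} (hC : RC a p q)
    (hN : Preserves K F (Sep F)) {H : Subgroup (Sep F ≃ₐ[K] Sep F)} (hH : H.Normal)
    (hfin : H.FiniteIndex)

include hT hC hN hH hfin in
theorem blkP (c : Cc (Wc K a (p * q)) F) (hc : PC k' (Wc K a (p * q)) H c)
    (f : k' → ZMod 2) (hf : PF (Wc K a (p * q)) (c 1) f) (x y : k')
    (hx : aeval x p = 0) (hy : aeval y p = 0) : f x = f y := by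
  haveI := hT.sep
  haveI : IsSepClosed k' := IsSepClosure.sep_closed k
  exact kthB hT hC.S hN hH hfin (P1 := p) (Q1 := a ^ 2 - 4 * (p * q))
    (fun θ hθ => by rw [map_mul, hθ, zero_mul]) (fun θ hθ => hθ) (hC.cycP k').cyc (hC.pureP k')
    (five_of hC.sp hC.np) (five_of hC.sd hC.nd) hc hf hx hy

include hT hC hN hH hfin in
theorem blkQ (c : Cc (Wc K a (p * q)) F) (hc : PC k' (Wc K a (p * q)) H c)
    (f : k' → ZMod 2) (hf : PF (Wc K a (p * q)) (c 1) f) (x y : k')
    (hx : aeval x q = 0) (hy : aeval y q = 0) : f x = f y := by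
  haveI := hT.sep
  haveI : IsSepClosed k' := IsSepClosure.sep_closed k
  exact kthB hT hC.S hN hH hfin (P1 := q) (Q1 := a ^ 2 - 4 * (p * q))
    (fun θ hθ => by rw [map_mul, hθ, mul_zero]) (fun θ hθ => hθ) (hC.cycQ k').cyc (hC.pureQ k')
    (five_of hC.sq hC.nq) (five_of hC.sd hC.nd) hc hf hx hy

include hT hC hN hH hfin in
theorem blkD (c : Cc (Wc K (-2 * a) (a ^ 2 - 4 * (p * q))) F)
    (hc : PC k' (Wc K (-2 * a) (a ^ 2 - 4 * (p * q))) H c)
    (f : k' → ZMod 2) (hf : PF (Wc K (-2 * a) (a ^ 2 - 4 * (p * q))) (c 1) f) (x y : k')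
    (hx : aeval x (a ^ 2 - 4 * (p * q)) = 0) (hy : aeval y (a ^ 2 - 4 * (p * q)) = 0) :
    f x = f y := by
  haveI := hT.sep
  haveI : IsSepClosed k' := IsSepClosure.sep_closed k
  have h2' : (2 : k') ≠ 0 := two_k' hC.h2
  refine kthB hT hC.S.dual hN hH hfin (P1 := a ^ 2 - 4 * (p * q)) (Q1 := p)
    (fun θ hθ => hθ) (fun θ hθ => (root_dual hC.h2).2 (by rw [map_mul, hθ, zero_mul]))
    (hC.cycD k').cyc ?_ (five_of hC.sd hC.nd) (five_of hC.sp hC.np) hc hf hx hy
  exact ((hC.pureP k').symm h2' hC.S.cop).congr (fun θ => Iff.rfl)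
    (fun θ => root_dual hC.h2) (fun θ => Iff.rfl) (fun θ => Iff.rfl)

/-- The point `P₁ = (p, p w)` over `F`. -/
def IsP1 (k' : Type) [Field k'] [Algebra k k'] [Algebra k'[X] F] [IsFractionRing k'[X] F]
    (K : Type) [Field K] [Algebra k[X] K] [Algebra K F] (a p q w : k[X])
    (P : Pt (Wc K a (p * q)) F) : Prop :=
  ∃ h : ((Wc K a (p * q)).baseChange F).toAffine.Nonsingular (algebraMap K F (algebraMap k[X] K p))
    (algebraMap K F (algebraMap k[X] K (p * w))), P = Point.some _ _ h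

include hT hC in
theorem exists_isP1 {w : k[X]} (hw : a + p + q = w ^ 2) :
    ∃ P : Pt (Wc K a (p * q)) F, IsP1 k' K a p q w P := by
  haveI := hT.fracK
  have inj := IsFractionRing.injective k[X] K
  have hb : algebraMap k[X] K p * algebraMap k[X] K q ≠ 0 := by
    rw [← map_mul, Ne, map_eq_zero_iff _ inj]
    exact hC.S.sb.ne_zero
  have hd : algebraMap k[X] K a ^ 2 - 4 * (algebraMap k[X] K p * algebraMap k[X] K q) ≠ 0 := by
    have e : algebraMap k[X] K a ^ 2 - 4 * (algebraMap k[X] K p * algebraMap k[X] K q) =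
        algebraMap k[X] K (a ^ 2 - 4 * (p * q)) := by
      rw [map_sub, map_mul, map_pow, map_mul, map_ofNat]
    rw [e, Ne, map_eq_zero_iff _ inj]
    exact hC.sd.ne_zero
  have h2 : (2 : K) ≠ 0 := tt hC.h2
  have hn := exists_P1 h2 hb hd (w := algebraMap k[X] K w) (by
    rw [← map_add, ← map_add, hw, map_pow])
  have hn' : ((Wc K a (p * q)).baseChange K).toAffine.Nonsingular (algebraMap k[X] K p)
      (algebraMap k[X] K (p * w)) := by
    rw [map_mul (algebraMap k[X] K) p w]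
    show ((crvT (algebraMap k[X] K a) (algebraMap k[X] K (p * q))).baseChange K).toAffine.Nonsingular
      (algebraMap k[X] K p) (algebraMap k[X] K p * algebraMap k[X] K w)
    rw [map_mul (algebraMap k[X] K) p q]
    exact hn
  obtain ⟨h', e⟩ := act_some (Wc K a (p * q)) (incl K K F) hn'
  exact ⟨_, h', e⟩

variable {w : k[X]} {P₁ : Pt (Wc K a (p * q)) F} (h1 : IsP1 k' K a p q w P₁)

include h1 in
theorem P1_fix (τ : Sep F ≃ₐ[K] Sep F) :
    act (Wc K a (p * q)) (ak τ) (act (Wc K a (p * q)) (incl K F (Sep F)) P₁) =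
      act (Wc K a (p * q)) (incl K F (Sep F)) P₁ := by
  obtain ⟨hn, rfl⟩ := h1
  obtain ⟨g1, e1⟩ := act_some (Wc K a (p * q)) (incl K F (Sep F)) hn
  rw [e1]
  obtain ⟨g2, e2⟩ := act_some (Wc K a (p * q)) (ak τ) g1
  rw [e2]
  have key : ∀ x : K, (ak τ) ((incl K F (Sep F)) (algebraMap K F x)) =
      (incl K F (Sep F)) (algebraMap K F x) := by
    intro x
    have e3 : (incl K F (Sep F)) (algebraMap K F x) = algebraMap K (Sep F) x :=
      (incl K F (Sep F)).commutes x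
    rw [e3]
    exact (ak τ).commutes x
  apply Pool.Agent.K9h16.PT.some_congr
  · exact key _
  · exact key _

include h1 hT hC in
theorem dT_P1 : dT (algebraMap K F (algebraMap k[X] K (p * q))) P₁ =
    algebraMap k'[X] F (p.map (algebraMap k k')) := by
  obtain ⟨hn, rfl⟩ := h1
  have hp : algebraMap k'[X] F (p.map (algebraMap k k')) ≠ 0 := by
    simpa using (Polynomial.map_ne_zero_iff (algebraMap k k').injective).2 hC.sp.ne_zero
  show (if algebraMap K F (algebraMap k[X] K p) = 0 then _ else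
    algebraMap K F (algebraMap k[X] K p)) = _
  rw [hT.map, if_neg hp]

include h1 hT hC in
theorem par_P1 (θ : k') : par (pl θ) (dT (algebraMap K F (algebraMap k[X] K (p * q))) P₁) =
    if aeval θ p = 0 then 1 else 0 := by
  rw [dT_P1 hT hC h1, par_sep hC.sp.map]
  simp only [IsRoot.def, eval_map_algebraMap]

include hT hC hN hH hfin h1 in
theorem enoughE : Enough k' K H a (p * q) {R | ∃ P₂ : Pt (Wc K a (p * q)) F, (P₂ = 0 ∨ P₂ = P₁) ∧
    R 0 = act (Wc K a (p * q)) (incl K F (Sep F)) P₂} := by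
  haveI := hT.sep
  haveI := hT.fracK
  intro c hc f hf
  obtain ⟨α, γ, hR⟩ := exists_rts hT hC.S
  obtain ⟨xp, -, -, hxp, -⟩ := five_of (Ω := k') hC.sp hC.np (0 : k') 0
  obtain ⟨xq, -, -, hxq, -⟩ := five_of (Ω := k') hC.sq hC.nq (0 : k') 0
  have bP := blkP hT hC hN hH hfin c hc f hf
  have bQ := blkQ hT hC hN hH hfin c hc f hf
  have main : ∀ P₂ : Pt (Wc K a (p * q)) F, (P₂ = 0 ∨ P₂ = P₁) →
      (∀ τ ∈ H, act (Wc K a (p * q)) (ak τ) (act (Wc K a (p * q)) (incl K F (Sep F)) P₂) =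
        act (Wc K a (p * q)) (incl K F (Sep F)) P₂) →
      (∃ κ : ZMod 2, ∀ θ : k', aeval θ (p * q) = 0 →
        f θ + par (pl θ) (dT (algebraMap K F (algebraMap k[X] K (p * q))) P₂) = κ) →
      ∃ R ∈ {R : ℕ → Pt (Wc K a (p * q)) (Sep F) | ∃ P₂ : Pt (Wc K a (p * q)) F,
        (P₂ = 0 ∨ P₂ = P₁) ∧ R 0 = act (Wc K a (p * q)) (incl K F (Sep F)) P₂},
        KS (Wc K a (p * q)) H R ∧ ∃ (g : k' → ZMod 2) (κ : ZMod 2),
          PF (Wc K a (p * q)) (kap R 1) g ∧ ∀ θ : k', aeval θ (p * q) = 0 → f θ + g θ = κ := by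
    intro P₂ h3 h4 h5
    obtain ⟨κ, h5⟩ := h5
    obtain ⟨R, hR0, hKS⟩ := exists_KS (K := K) (F := F) (W := Wc K a (p * q)) (H := H)
      (halve_sep hR.E) (P := act (Wc K a (p * q)) (incl K F (Sep F)) P₂)
      (fun σ => rs_act_incl _ σ _) h4
    exact ⟨R, ⟨P₂, h3, hR0⟩, hKS, _, κ, pf_kap hR hKS hR0, h5⟩
  by_cases he : f xp = f xq
  · refine main 0 (Or.inl rfl) (fun τ _ => by rw [map_zero, map_zero]) ⟨f xp, fun θ hθ => ?_⟩
    have e1 : par (pl θ) (dT (algebraMap K F (algebraMap k[X] K (p * q)))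
        (0 : Pt (Wc K a (p * q)) F)) = 0 := par_one _
    rw [e1, add_zero]
    rw [map_mul, mul_eq_zero] at hθ
    rcases hθ with hθ | hθ
    · exact bP θ xp hθ hxp
    · rw [he]
      exact bQ θ xq hθ hxq
  · refine main P₁ (Or.inr rfl) (fun τ _ => P1_fix h1 τ) ⟨f xq, fun θ hθ => ?_⟩
    rw [par_P1 hT hC h1]
    rw [map_mul, mul_eq_zero] at hθ
    rcases hθ with hθ | hθ
    · rw [if_pos hθ, bP θ xp hθ hxp]
      have : ∀ x y : ZMod 2, x ≠ y → x + 1 = y := by decide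
      exact this _ _ he
    · rw [if_neg (fun h => cop_ne hC.pq h hθ), add_zero]
      exact bQ θ xq hθ hxq

include hT hC hN hH hfin in
theorem enoughD : Enough k' K H (-2 * a) (a ^ 2 - 4 * (p * q))
    {R | R 0 = act (Wc K (-2 * a) (a ^ 2 - 4 * (p * q))) (incl K F (Sep F)) 0} := by
  haveI := hT.sep
  haveI := hT.fracK
  intro c hc f hf
  obtain ⟨α, γ, hR⟩ := exists_rts hT hC.S.dual
  obtain ⟨xd, -, -, hxd, -⟩ := five_of (Ω := k') hC.sd hC.nd (0 : k') 0
  have bD := blkD hT hC hN hH hfin c hc f hf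
  obtain ⟨R, hR0, hKS⟩ := exists_KS (K := K) (F := F)
    (W := Wc K (-2 * a) (a ^ 2 - 4 * (p * q))) (H := H) (halve_sep hR.E)
    (P := act (Wc K (-2 * a) (a ^ 2 - 4 * (p * q))) (incl K F (Sep F)) 0)
    (fun σ => rs_act_incl _ σ _) (fun τ _ => by rw [map_zero, map_zero])
  refine ⟨R, hR0, hKS, _, f xd, pf_kap hR hKS hR0, fun θ hθ => ?_⟩
  have e1 : par (pl θ) (dT (algebraMap K F (algebraMap k[X] K (a ^ 2 - 4 * (p * q))))
      (0 : Pt (Wc K (-2 * a) (a ^ 2 - 4 * (p * q))) F)) = 0 := par_one _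
  rw [e1, add_zero]
  exact bD θ xd hθ hxd

end blk

end Pool.Agent.K9h16.RO
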