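import Pool.Agent.K9h16.RO.Main

/-!
All the finite separable extensions of the field of constants and all the twists by constants.
-/

set_option autoImplicit false
set_option linter.all false

open Polynomial IsDedekindDomain WeierstrassCurve WeierstrassCurve.Affine
open scoped Classical Pointwise

namespace Pool.Agent.K9h16.RO

open Pool.Agent.TH115.GD Pool.Agent.K9h16.PT Pool.Agent.K9h16.QT Pool.Agent.R939.EI
  Pool.Agent.K9h16.BT
open Pool.Agent.N181.P8 (TateQ)

section fin

variable {k L L' K F : Type} [Field k] [Field L] [Field L'] [Algebra k L] [Algebra L L']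
    [Algebra k L'] [IsScalarTower k L L'] [FiniteDimensional k L] [Algebra.IsSeparable k L]
    [Field K] [Algebra L[X] K] [Field F] [Algebra L'[X] F] [IsFractionRing L'[X] F] [Algebra K F]
    (hT : IsTower L L' K F)

include hT in
/-- The Tate conjecture over all the finite separable extensions. -/
theorem fin_tateR' {a p q w : k[X]} (hC : RC a p q) (hw : a + p + q = w ^ 2) {δ : L}
    (hδ : δ ≠ 0) :
    TateQ (F := F) 2 L' (crvT (algebraMap L[X] K (C δ * a.map (algebraMap k L)))
      (algebraMap L[X] K (C (δ ^ 2) * (p * q).map (algebraMap k L)))) := by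
  haveI := hT.sep
  haveI := hT.fracK
  haveI : IsSepClosed L' := IsSepClosure.sep_closed L
  haveI : Algebra.IsSeparable L L' := IsSepClosure.separable
  haveI : Algebra.IsSeparable k L' := Algebra.IsSeparable.trans k L L'
  haveI : IsSepClosure k L' := ⟨inferInstance, inferInstance⟩
  haveI : IsGalois k L' := IsSepClosure.isGalois
  haveI : IsGalois L L' := IsSepClosure.isGalois
  haveI : IsSepClosure K (Sep F) := sepKΩ hT.map
  haveI : Algebra.IsSeparable K (Sep F) := IsSepClosure.separable
  haveI : IsGalois K (Sep F) := IsSepClosure.isGalois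
  obtain ⟨K1, _, _, _, hT1⟩ := mk_tower k L' F
  haveI := hT1.fracK
  obtain ⟨P₁, h1⟩ := exists_isP1 (k' := L') (F := F) hT1 hC hw
  have hn := nons_T (k' := L') (F := F) hT1 hC
  have h2L' : (2 : L') ≠ 0 := by
    rw [← map_ofNat (algebraMap k L') 2]
    exact (map_ne_zero_iff _ (algebraMap k L').injective).2 hC.h2
  haveI : NeZero ((2 : ℕ) : L') := ⟨by rw [Nat.cast_ofNat]; exact h2L'⟩
  obtain ⟨ρ, hρ⟩ : ∃ ρ : L', ρ ^ 2 = algebraMap L L' δ⁻¹ := IsSepClosed.exists_pow_nat_eq _ 2
  have hδ' : algebraMap L L' δ ≠ 0 := (_root_.map_ne_zero _).2 hδ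
  have hρ0 : ρ ≠ 0 := by
    rintro rfl
    rw [zero_pow two_ne_zero, map_inv₀] at hρ
    exact inv_ne_zero hδ' hρ.symm
  -- the transport
  have htr : IsTrT (F := F) (algebraMap L[X] K (C δ * a.map (algebraMap k L)))
      (algebraMap L[X] K (C (δ ^ 2) * (p * q).map (algebraMap k L)))
      (algebraMap k[X] K1 a) (algebraMap k[X] K1 (p * q)) (cst L' F ρ) := by
    have e0 : ∀ (p : k[X]) (x : L'), x ≠ 0 → algebraMap K1 F (algebraMap k[X] K1 p) =
        cst L' F x⁻¹ * algebraMap L'[X] F (C x * p.map (algebraMap k L')) := by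
      intro p x hx
      rw [hT1.map, map_mul, ← mul_assoc]
      have e1 : cst L' F x⁻¹ * algebraMap L'[X] F (C x) = 1 := by
        have : cst L' F x⁻¹ = algebraMap L'[X] F (C x⁻¹) := rfl
        rw [this, ← map_mul, ← C_mul, inv_mul_cancel₀ hx, C_1, map_one]
      rw [e1, one_mul]
    refine ⟨(_root_.map_ne_zero _).2 hρ0, ?_, ?_⟩
    · rw [e0 a _ hδ', hT.map, Polynomial.map_mul, map_C, Polynomial.map_map,
        ← IsScalarTower.algebraMap_eq, ← map_pow, hρ, map_inv₀ (algebraMap L L')]
    · have e4 : ρ ^ 4 = algebraMap L L' (δ ^ 2)⁻¹ := by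
        have : ρ ^ 4 = (ρ ^ 2) ^ 2 := by ring
        rw [this, hρ, ← map_pow, inv_pow]
      generalize p * q = b
      rw [e0 b _ (pow_ne_zero 2 hδ'), hT.map, Polynomial.map_mul, map_C, Polynomial.map_map,
        ← IsScalarTower.algebraMap_eq, ← map_pow (cst L' F), e4, map_inv₀ (algebraMap L L'),
        map_pow (algebraMap L L')]
  -- the field `M`
  obtain ⟨S, hSS⟩ : ∃ S : Set L', S = {ρ} ∪ Set.range
    (fun i => algebraMap L L' (Module.finBasis k L i)) := ⟨_, rfl⟩
  have hSf : S.Finite := by
    rw [hSS]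
    exact (Set.finite_singleton _).union (Set.finite_range _)
  haveI : Finite S := hSf
  obtain ⟨M, hM⟩ : ∃ M : FiniteGaloisIntermediateField k L',
    M = FiniteGaloisIntermediateField.adjoin k S := ⟨_, rfl⟩
  have hSM : ∀ x ∈ S, x ∈ M.toIntermediateField := by
    rw [hM]
    exact fun x hx => FiniteGaloisIntermediateField.subset_adjoin k S hx
  have hρM : ρ ∈ M.toIntermediateField := hSM _ (by rw [hSS]; exact Or.inl rfl)
  have hLM : ∀ x : L, algebraMap L L' x ∈ M.toIntermediateField := by
    intro x
    rw [← (Module.finBasis k L).sum_repr x, map_sum]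
    refine sum_mem fun i _ => ?_
    rw [Algebra.smul_def, map_mul, ← IsScalarTower.algebraMap_apply]
    exact mul_mem (M.toIntermediateField.algebraMap_mem _)
      (hSM _ (by rw [hSS]; exact Or.inr ⟨i, rfl⟩))
  haveI : FiniteDimensional k M.toIntermediateField := M.finiteDimensional
  haveI : IsGalois k M.toIntermediateField := M.isGalois
  haveI : Normal k M.toIntermediateField := inferInstance
  -- the field `M L`
  obtain ⟨S', hSS'⟩ : ∃ S' : Set L', S' = Set.range
    (fun i => ((Module.finBasis k M.toIntermediateField i : M.toIntermediateField) : L')) :=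
    ⟨_, rfl⟩
  have hSf' : S'.Finite := by
    rw [hSS']
    exact Set.finite_range _
  haveI : Finite S' := hSf'
  obtain ⟨M', hM'⟩ : ∃ M' : FiniteGaloisIntermediateField L L',
    M' = FiniteGaloisIntermediateField.adjoin L S' := ⟨_, rfl⟩
  have hMM' : ∀ x ∈ M.toIntermediateField, x ∈ M'.toIntermediateField := by
    intro x hx
    have h1 := (Module.finBasis k M.toIntermediateField).sum_repr ⟨x, hx⟩
    have h2 : x = ∑ i, algebraMap k L' ((Module.finBasis k M.toIntermediateField).repr ⟨x, hx⟩ i) *
        ((Module.finBasis k M.toIntermediateField i : M.toIntermediateField) : L') := by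
      have h3 := congrArg (fun y : M.toIntermediateField => (y : L')) h1
      simp only at h3
      refine h3.symm.trans ?_
      rw [IntermediateField.coe_sum]
      refine Finset.sum_congr rfl fun i _ => ?_
      rw [Algebra.smul_def]
      rfl
    rw [h2]
    refine sum_mem fun i _ => mul_mem ?_ ?_
    · rw [IsScalarTower.algebraMap_apply k L L']
      exact M'.toIntermediateField.algebraMap_mem _
    · rw [hM']
      exact FiniteGaloisIntermediateField.subset_adjoin L S' (by rw [hSS']; exact ⟨i, rfl⟩)
  haveI : FiniteDimensional L M'.toIntermediateField := M'.finiteDimensional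
  haveI : IsGalois L M'.toIntermediateField := M'.isGalois
  haveI : Normal L M'.toIntermediateField := inferInstance
  obtain ⟨hcls, -⟩ := cmbR hT1 hC h1 (HM_normal hT1 M.toIntermediateField)
    (HM_fin hT1 M.toIntermediateField) hn
  -- the class
  intro c hc hl hi
  have hpc : PC L' _ (⊤ : Subgroup (Sep F ≃ₐ[K] Sep F)) c :=
    ⟨tcl_tc hc, hl, fun τ _ => invl_inv hi τ⟩
  have hpc1 := pc_tr htr (H' := HM L' K1 F (M.toIntermediateField : Set L')) (fun τ' hτ' => by
    obtain ⟨s, hs⟩ := exists_restr hT1 τ'
    have hsM := (lifts_mem_HM hs _).1 hτ'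
    have hfix : ∀ p : L[X], τ' (algebraMap K (Sep F) (algebraMap L[X] K p)) =
        algebraMap K (Sep F) (algebraMap L[X] K p) := by
      intro p
      rw [IsScalarTower.algebraMap_apply K F (Sep F), hT.map, hs, Polynomial.map_map]
      congr 3
      ext x
      exact hsM _ (hLM x)
    refine ⟨AlgEquiv.ofRingEquiv (f := τ'.toRingEquiv) (by
      intro x
      obtain ⟨n, d, hd, rfl⟩ := IsFractionRing.div_surjective (A := L[X]) x
      show τ' _ = _
      rw [map_div₀, map_div₀, hfix, hfix]), trivial, fun x => rfl, ?_⟩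
    exact hτ' ρ hρM) hpc
  haveI hfinI := HM_fin hT M'.toIntermediateField
  refine avg (preserves hT.map) (HM L' K F (M'.toIntermediateField : Set L'))
    Subgroup.finite_quotient_of_finiteIndex two_ne_zero hc hi fun m => ?_
  obtain ⟨X, R, hX, hXfix, hcR⟩ := hcls _ hpc1 m
  refine ⟨PhiT htr.symm (Sep F) X, PhiT htr.symm (Sep F) R, by rw [← map_nsmul, hX],
    fun τ hτ => ?_, fun σ => ?_⟩
  · -- the restriction of `τ`
    have hfix : ∀ p : k[X], τ (algebraMap K1 (Sep F) (algebraMap k[X] K1 p)) =
        algebraMap K1 (Sep F) (algebraMap k[X] K1 p) := by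
      intro p
      have e : algebraMap K1 (Sep F) (algebraMap k[X] K1 p) =
          algebraMap K (Sep F) (algebraMap L[X] K (p.map (algebraMap k L))) := by
        rw [IsScalarTower.algebraMap_apply K1 F (Sep F), hT1.map,
          IsScalarTower.algebraMap_apply K F (Sep F), hT.map, Polynomial.map_map,
          ← IsScalarTower.algebraMap_eq]
      rw [e, τ.commutes]
    obtain ⟨τ', hτ'⟩ : ∃ τ' : Sep F ≃ₐ[K1] Sep F, ∀ x, τ' x = τ x :=
      ⟨AlgEquiv.ofRingEquiv (f := τ.toRingEquiv) (by
        intro x
        obtain ⟨n, d, hd, rfl⟩ := IsFractionRing.div_surjective (A := k[X]) x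
        show τ _ = _
        rw [map_div₀, map_div₀, hfix, hfix]), fun x => rfl⟩
    have h1 := PhiT_semi htr.symm τ' τ hτ' (ε := 1) (by
      rw [Units.val_one, Int.cast_one, one_mul, map_inv₀ (algebraMap F (Sep F)), map_inv₀, hτ',
        hτ ρ (hMM' ρ hρM)]) X
    rw [Units.val_one, one_smul] at h1
    refine h1.trans ?_
    rw [hXfix τ' (fun x hx => by
      rw [hτ']
      exact hτ x (hMM' x hx))]
  · have h1 := hcR σ
    have h3 : PhiT htr.symm (Sep F) (trCT htr c m σ) = c m σ := PhiT_symm' htr (Sep F) (c m σ)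
    rw [← h3, h1, map_sub]
    congr 1
    exact (PhiT_rs htr.symm σ R).symm

end fin

section fin'

variable {k L L' K F : Type} [Field k] [Field L] [Field L'] [Algebra k L] [Algebra L L']
    [FiniteDimensional k L] [Algebra.IsSeparable k L]
    [Field K] [Algebra L[X] K] [Field F] [Algebra L'[X] F] [IsFractionRing L'[X] F] [Algebra K F]
    (hT : IsTower L L' K F)

include hT in
/-- **The Tate conjecture over all the finite separable extensions.** -/
theorem fin_tateR {a p q w : k[X]} (hC : RC a p q) (hw : a + p + q = w ^ 2) {δ : L}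
    (hδ : δ ≠ 0) :
    TateQ (F := F) 2 L' (crvT (algebraMap L[X] K (C δ * a.map (algebraMap k L)))
      (algebraMap L[X] K (C (δ ^ 2) * (p * q).map (algebraMap k L)))) := by
  letI : Algebra k L' := ((algebraMap L L').comp (algebraMap k L)).toAlgebra
  haveI : IsScalarTower k L L' := IsScalarTower.of_algebraMap_eq fun x => rfl
  exact fin_tateR' hT hC hw hδ

end fin'

end Pool.Agent.K9h16.RO
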