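import Pool.Agent.K9h16.RO.Alt

/-!
A Frobenius element which fixes the roots of one polynomial and moves a root of another one.
-/

set_option autoImplicit false
set_option linter.all false

open Polynomial IsLocalRing
open scoped Classical

namespace Pool.Agent.K9h16.RO

open Pool.Agent.K9h16.PT Pool.Agent.X243.Gen Pool.Agent.X243.Tate Pool.Agent.X243.Sol

/-- `f` is not a product of linear factors. -/
def NS {R : Type} [CommRing R] (f : R[X]) : Prop :=
  ∀ (d : R) (M : Multiset R), f ≠ C d * (M.map (fun c => X - C c)).prod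

theorem pow_mem {R' κ : Type} [Field R'] [Finite R'] [Field κ] (j : R' →+* κ) {x : κ}
    (hx : x ^ Nat.card R' = x) : ∃ c, j c = x := by
  haveI := Fintype.ofFinite R'
  rw [Nat.card_eq_fintype_card] at hx
  have hq := Fintype.one_lt_card (α := R')
  have h0 : (X ^ Fintype.card R' - X : κ[X]) ≠ 0 := FiniteField.X_pow_card_sub_X_ne_zero κ hq
  have h1 : Finset.univ.image j ⊆ (X ^ Fintype.card R' - X : κ[X]).roots.toFinset := by
    intro y hy
    obtain ⟨c, -, rfl⟩ := Finset.mem_image.1 hy
    rw [Multiset.mem_toFinset, mem_roots h0, IsRoot.def, eval_sub, eval_pow, eval_X, ← map_pow,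
      FiniteField.pow_card, sub_self]
  have h2 : (X ^ Fintype.card R' - X : κ[X]).roots.toFinset.card ≤
      (Finset.univ.image j).card := by
    rw [Finset.card_image_of_injective _ j.injective, Finset.card_univ]
    refine (Multiset.toFinset_card_le _).trans ((card_roots' _).trans ?_)
    rw [FiniteField.X_pow_card_sub_X_natDegree_eq κ hq]
  have h3 := Finset.eq_of_subset_of_card_le h1 h2
  have h4 : x ∈ (X ^ Fintype.card R' - X : κ[X]).roots.toFinset := by
    rw [Multiset.mem_toFinset, mem_roots h0, IsRoot.def, eval_sub, eval_pow, eval_X, hx, sub_self]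
  rw [← h3] at h4
  obtain ⟨c, -, rfl⟩ := Finset.mem_image.1 h4
  exact ⟨c, rfl⟩

section frob

variable {R k : Type} [CommRing R] [IsDomain R] [IsIntegrallyClosed R] [IsNoetherianRing R]
  [Field k] [Algebra R k] [IsFractionRing R k] (m : Ideal R) [m.IsMaximal] [Finite (R ⧸ m)]

/-- The roots and the action of a given Frobenius element. -/
theorem roots_of' (k) [Field k] [Algebra R k] [IsFractionRing R k] {f : R[X]} {N : ℕ}
    (hf : f.natDegree ≤ N)
    (hd : (f.map (Ideal.Quotient.mk m)).natDegree = N)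
    (hne : f.map (Ideal.Quotient.mk m) ≠ 0)
    (E : Type) [Field E] [Algebra k E]
    [FiniteDimensional k E] [IsGalois k E] [Algebra R E] [IsScalarTower R k E]
    (hspl : ((f.map (algebraMap R k)).map (algebraMap k E)).Splits)
    {B : ValuationSubring E} {ρ : R →+* B} {j : R ⧸ m →+* ResidueField B} {σ : E ≃ₐ[k] E}
    (hρ : ∀ x : R, (ρ x : E) = algebraMap R E x)
    (hj : ∀ x : R, residue B (ρ x) = j (Ideal.Quotient.mk m x))
    (hσ : ∀ (c : R), c ∉ m → ∀ θ : E, IsIntegral R (algebraMap R E c * θ) →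
        θ ∈ B ∧ σ θ ∈ B ∧ red B (σ θ) = red B θ ^ Nat.card (R ⧸ m)) :
      (∀ θ : E, aeval θ (f.map (algebraMap R k)) = 0 → θ ∈ B ∧ σ θ ∈ B ∧
        red B (σ θ) = red B θ ^ Nat.card (R ⧸ m)) ∧
      (f.map (Ideal.Quotient.mk m)).map j =
        C (j (f.map (Ideal.Quotient.mk m)).leadingCoeff) *
          ((((f.map (algebraMap R k)).map (algebraMap k E)).roots.map
            (fun θ => X - C (red B θ))).prod) := by
  haveI : m.IsMaximal := inferInstance
  letI : Field (R ⧸ m) := Ideal.Quotient.field m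
  obtain ⟨fb, hfb⟩ : ∃ fb, fb = f.map (Ideal.Quotient.mk m) := ⟨_, rfl⟩
  rw [← hfb] at hd hne ⊢
  have hfN : f.natDegree = N := by
    refine le_antisymm hf ?_
    rw [← hd, hfb]
    exact natDegree_map_le
  have hlc : fb.leadingCoeff = Ideal.Quotient.mk m f.leadingCoeff := by
    rw [leadingCoeff, hd, hfb, coeff_map, leadingCoeff, hfN]
  have hc : f.leadingCoeff ∉ m := by
    intro h
    apply leadingCoeff_ne_zero.2 hne
    rw [hlc, Ideal.Quotient.eq_zero_iff_mem]
    exact h
  have hinjk : Function.Injective (algebraMap R k) := IsFractionRing.injective R k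
  have hf0 : f ≠ 0 := by
    rintro rfl
    apply hc
    rw [leadingCoeff_zero]
    exact Ideal.zero_mem _
  obtain ⟨F, hF⟩ : ∃ F, F = f.map (algebraMap R k) := ⟨_, rfl⟩
  rw [← hF] at hspl
  have hlcF : F.leadingCoeff = algebraMap R k f.leadingCoeff := by
    rw [hF, leadingCoeff_map_of_injective hinjk]
  have hF0 : F ≠ 0 := hF ▸ (Polynomial.map_ne_zero_iff hinjk).2 hf0
  rw [← hF]
  have hθint : ∀ θ, aeval θ F = 0 → IsIntegral R (algebraMap R E f.leadingCoeff * θ) := by
    intro θ hθ
    rw [hF, aeval_map_algebraMap] at hθ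
    have := isIntegral_leadingCoeff_smul f θ hθ
    rwa [Algebra.smul_def] at this
  have hθs : ∀ θ, aeval θ F = 0 → θ ∈ B ∧ σ θ ∈ B ∧
      red B (σ θ) = red B θ ^ Nat.card (R ⧸ m) := fun θ hθ => hσ _ hc θ (hθint θ hθ)
  refine ⟨hθs, ?_⟩
  have hFE0 : F.map (algebraMap k E) ≠ 0 :=
    (Polynomial.map_ne_zero_iff (algebraMap k E).injective).2 hF0
  have hrt : ∀ θ : E, θ ∈ (F.map (algebraMap k E)).roots ↔ aeval θ F = 0 := by
    intro θ
    rw [mem_roots hFE0, IsRoot.def, eval_map_algebraMap]
  have hBθ : ∀ θ ∈ (F.map (algebraMap k E)).roots, θ ∈ B := fun θ h => (hθs θ ((hrt θ).1 h)).1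
  have hmapρ : (f.map ρ).map (algebraMap B E) = F.map (algebraMap k E) := by
    rw [hF, Polynomial.map_map, Polynomial.map_map, ← IsScalarTower.algebraMap_eq]
    congr 1
    ext x
    exact hρ x
  have hfac : (f.map ρ) = C (ρ f.leadingCoeff) *
      ((F.map (algebraMap k E)).roots.attach.map
        (fun θ => (X - C (⟨θ.1, hBθ θ.1 θ.2⟩ : B)))).prod := by
    apply Polynomial.map_injective (algebraMap B E) Subtype.val_injective
    rw [hmapρ, Polynomial.map_mul, map_C, Polynomial.map_multiset_prod, Multiset.map_map]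
    have h1 : (Multiset.map ((Polynomial.map (algebraMap B E)) ∘
        (fun θ : {x // x ∈ (F.map (algebraMap k E)).roots} => (X - C (⟨θ.1, hBθ θ.1 θ.2⟩ : B))))
        (F.map (algebraMap k E)).roots.attach) =
        (F.map (algebraMap k E)).roots.map (fun θ => X - C θ) := by
      conv_rhs => rw [← Multiset.attach_map_val (F.map (algebraMap k E)).roots]
      rw [Multiset.map_map]
      refine Multiset.map_congr rfl fun θ _ => ?_
      simp only [Function.comp, Polynomial.map_sub, map_X, map_C]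
      rfl
    rw [h1]
    have h2 := hspl.eq_prod_roots
    have hl : algebraMap B E (ρ f.leadingCoeff) = (F.map (algebraMap k E)).leadingCoeff := by
      rw [leadingCoeff_map, hlcF, ← IsScalarTower.algebraMap_apply]
      exact hρ _
    rw [hl]
    exact h2
  rw [hfb, ← map_quot m ρ (residue B) j hj f, hfac, Polynomial.map_mul, map_C,
    Polynomial.map_multiset_prod, Multiset.map_map, ← hfb, hlc, hj]
  congr 2
  conv_rhs => rw [← Multiset.attach_map_val (F.map (algebraMap k E)).roots]
  rw [Multiset.map_map]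
  refine Multiset.map_congr rfl fun θ _ => ?_
  simp only [Function.comp, Polynomial.map_sub, map_X, map_C]
  congr 2
  exact (red_coe (⟨θ.1, hBθ θ.1 θ.2⟩ : B)).symm

theorem frob_mv (k) [Field k] [Algebra R k] [IsFractionRing R k] {P Q : R[X]} {N : ℕ}
    (hP : P.natDegree ≤ N) (hQ : Q.natDegree ≤ N) (h4 : S4 N (P.map (Ideal.Quotient.mk m)))
    (hQd : (Q.map (Ideal.Quotient.mk m)).natDegree = N)
    (h3 : NS (Q.map (Ideal.Quotient.mk m))) :
    MvG (P.map (algebraMap R k)) (Q.map (algebraMap R k)) := by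
  intro E _ _ _ _ splP splQ
  letI : Algebra R E := ((algebraMap k E).comp (algebraMap R k)).toAlgebra
  haveI : IsScalarTower R k E := IsScalarTower.of_algebraMap_eq fun _ => rfl
  haveI : m.IsMaximal := inferInstance
  letI : Field (R ⧸ m) := Ideal.Quotient.field m
  letI := Fintype.ofFinite (R ⧸ m)
  obtain ⟨d, S, hd, hS, hfac⟩ := h4
  obtain ⟨B, ρ, j, σ, hρ, hj, hσ⟩ := frob_gen m k E
  obtain ⟨-, fP, -⟩ := split_fix m k hP hd hS hfac E splP hρ hj hσ
  refine ⟨σ, fun θ hθ => (fP θ hθ).1, ?_⟩
  by_contra hcon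
  push Not at hcon
  have hne : Q.map (Ideal.Quotient.mk m) ≠ 0 := by
    intro h0
    apply h3 0 0
    rw [h0, C_0, zero_mul]
  obtain ⟨hθs, hr⟩ := roots_of' m k hQ hQd hne E splQ hρ hj hσ
  have hQ0 : (Q.map (algebraMap R k)).map (algebraMap k E) ≠ 0 := by
    refine (Polynomial.map_ne_zero_iff (algebraMap k E).injective).2
      ((Polynomial.map_ne_zero_iff (IsFractionRing.injective R k)).2 ?_)
    rintro rfl
    rw [Polynomial.map_zero] at hne
    exact hne rfl
  have hc : ∀ θ ∈ ((Q.map (algebraMap R k)).map (algebraMap k E)).roots, ∃ c : R ⧸ m,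
      j c = red B θ := by
    intro θ hθ
    rw [mem_roots hQ0, IsRoot.def, eval_map_algebraMap] at hθ
    apply pow_mem j
    rw [← (hθs θ hθ).2.2, hcon θ hθ]
  choose! c hc using hc
  refine h3 (Q.map (Ideal.Quotient.mk m)).leadingCoeff
    (((Q.map (algebraMap R k)).map (algebraMap k E)).roots.map c) ?_
  apply Polynomial.map_injective j j.injective
  rw [hr, Polynomial.map_mul, map_C, Polynomial.map_multiset_prod, Multiset.map_map,
    Multiset.map_map]
  congr 2
  refine Multiset.map_congr rfl fun θ hθ => ?_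
  simp only [Function.comp, Polynomial.map_sub, map_X, map_C]
  rw [hc θ hθ]

end frob

end Pool.Agent.K9h16.RO
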