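import Pool.Agent.K9h16.GK.Lvl
import Pool.Agent.K9h16.BT.Cov

/-!
The conditions on the Galois groups for `y² = x (x² + a x + p q)`.
-/

set_option autoImplicit false
set_option linter.all false

open Polynomial
open scoped Classical

namespace Pool.Agent.K9h16.RO

open Pool.Agent.K9h16.PT Pool.Agent.K9h16.QT Pool.Agent.K9h16.GK Pool.Agent.K9h16.BT
  Pool.Agent.X243.Gen Pool.Agent.X243.Tate Pool.Agent.X243.Sol

theorem dt_6 {I : Type} (x y z : I) : dt x y y z z = x := by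
  rw [dt, Equiv.Perm.mul_apply, Equiv.swap_apply_right, Equiv.swap_apply_right]

section fam

variable {k : Type} [Field k] {n : ℕ} {P : Fin n → k[X]}

theorem cyc_fam (h : ContainsAlternating P) (h0 : ∏ i, P i ≠ 0) {Ω : Type} [Field Ω]
    [Algebra k Ω] [Normal k Ω] (hs : ∀ i, ((P i).map (algebraMap k Ω)).Splits) (i : Fin n) :
    ∀ x y z : Ω, aeval x (P i) = 0 → aeval y (P i) = 0 → aeval z (P i) = 0 → x ≠ y → x ≠ z →
      y ≠ z → ∃ s : Ω ≃ₐ[k] Ω, s x = y ∧ s y = z ∧ s z = x ∧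
        (∀ θ : Ω, aeval θ (P i) = 0 → θ ≠ x → θ ≠ y → θ ≠ z → s θ = θ) ∧
        ∀ l, l ≠ i → ∀ θ : Ω, aeval θ (P l) = 0 → s θ = θ := by
  intro x y z hx hy hz n1 n2 n3
  have hP0 := ne_fam h0 i
  have mk : ∀ y : Ω, aeval y (P i) = 0 → y ∈ (P i).rootSet Ω := fun y hy => mem_rootSet.2 ⟨hP0, hy⟩
  have ne' : ∀ {u v : Ω} (hu : aeval u (P i) = 0) (hv : aeval v (P i) = 0), u ≠ v →
      (⟨u, mk u hu⟩ : (P i).rootSet Ω) ≠ ⟨v, mk v hv⟩ := fun hu hv h e =>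
    h (congrArg Subtype.val e)
  obtain ⟨s, s1, s2⟩ := acts_dt h h0 hs i (x := ⟨x, mk x hx⟩) (y := ⟨y, mk y hy⟩)
    (z := ⟨y, mk y hy⟩) (w := ⟨z, mk z hz⟩) (ne' hx hy n1) (ne' hy hz n3)
  refine ⟨s, ?_, ?_, ?_, fun θ hθ m1 m2 m3 => ?_, s2⟩
  · have h3 := s1 ⟨x, mk x hx⟩
    rw [dt_1 (ne' hx hy n1) (ne' hx hz n2)] at h3
    exact h3
  · have h3 := s1 ⟨y, mk y hy⟩
    rw [dt_3 (ne' hx hz n2) (ne' hy hz n3)] at h3
    exact h3
  · have h3 := s1 ⟨z, mk z hz⟩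
    rw [dt_6] at h3
    exact h3
  · have h3 := s1 ⟨θ, mk θ hθ⟩
    rw [dt_5 (ne' hθ hx m1) (ne' hθ hy m2) (ne' hθ hy m2) (ne' hθ hz m3)] at h3
    exact h3

theorem cop_fam (h : ContainsAlternating P) (h0 : ∏ i, P i ≠ 0) (hsep : ∀ i, (P i).Separable)
    {i l : Fin n} (hil : l ≠ i) (h5 : 5 ≤ (P i).natDegree) : IsCoprime (P i) (P l) := by
  by_contra hcon
  have hs : ∀ i, ((P i).map (algebraMap k (SeparableClosure k))).Splits := fun i =>
    IsSepClosed.splits_of_separable _ (hsep i).map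
  obtain ⟨x, x1, x2⟩ := common_root (Ω := SeparableClosure k) (hsep i).ne_zero (hs i) hcon
  obtain ⟨z1, z2, z3, r1, r2, r3, n12, n13, n23, m1, -, m2, -, m3, -⟩ :=
    five_of (Ω := SeparableClosure k) (hsep i) h5 x x
  haveI : Normal k (SeparableClosure k) := IsGalois.to_normal
  obtain ⟨s, s1, -, -, -, s2⟩ := cyc_fam (Ω := SeparableClosure k) h h0 hs i x z1 z2 x1 r1 r2
    m1.symm m2.symm n12
  rw [s2 l hil x x2] at s1
  exact m1 s1.symm

end fam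

/-- The conditions. -/
structure RC {k : Type} [Field k] (a p q : k[X]) : Prop where
  h2 : (2 : k) ≠ 0
  sp : p.Separable
  sq : q.Separable
  sd : (a ^ 2 - 4 * (p * q)).Separable
  np : 5 ≤ p.natDegree
  nq : 5 ≤ q.natDegree
  nd : 5 ≤ (a ^ 2 - 4 * (p * q)).natDegree
  alt : ContainsAlternating ![p, q, a ^ 2 - 4 * (p * q)]
  mp : NonsquareMinor p (a ^ 2 - 4 * (p * q))
  mq : NonsquareMinor q (a ^ 2 - 4 * (p * q))

section rc

variable {k : Type} [Field k] {a p q : k[X]}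

theorem RC.h0 (h : RC a p q) : ∏ i, (![p, q, a ^ 2 - 4 * (p * q)] : Fin 3 → k[X]) i ≠ 0 := by
  rw [Finset.prod_ne_zero_iff]
  intro i _
  fin_cases i
  · exact h.sp.ne_zero
  · exact h.sq.ne_zero
  · exact h.sd.ne_zero

theorem RC.seps (h : RC a p q) (i : Fin 3) :
    ((![p, q, a ^ 2 - 4 * (p * q)] : Fin 3 → k[X]) i).Separable := by
  fin_cases i
  · exact h.sp
  · exact h.sq
  · exact h.sd

theorem RC.spl (h : RC a p q) {Ω : Type} [Field Ω] [Algebra k Ω] [IsSepClosed Ω] (i : Fin 3) :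
    (((![p, q, a ^ 2 - 4 * (p * q)] : Fin 3 → k[X]) i).map (algebraMap k Ω)).Splits :=
  IsSepClosed.splits_of_separable _ (h.seps i).map

theorem RC.pq (h : RC a p q) : IsCoprime p q :=
  cop_fam h.alt h.h0 h.seps (i := 0) (l := 1) (by decide) h.np

theorem RC.pd (h : RC a p q) : IsCoprime p (a ^ 2 - 4 * (p * q)) :=
  cop_fam h.alt h.h0 h.seps (i := 0) (l := 2) (by decide) h.np

theorem RC.qd (h : RC a p q) : IsCoprime q (a ^ 2 - 4 * (p * q)) :=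
  cop_fam h.alt h.h0 h.seps (i := 1) (l := 2) (by decide) h.nq

theorem RC.S (h : RC a p q) : Sd a (p * q) := by
  have h1 := h.np
  have h3 := h.nq
  have h4 := h.nd
  refine ⟨h.h2, h.sp.mul h.sq h.pq, h.sd, IsCoprime.mul_left h.pd h.qd, ?_, by omega⟩
  rw [natDegree_mul h.sp.ne_zero h.sq.ne_zero]
  omega

variable (Ω : Type) [Field Ω] [Algebra k Ω] [IsSepClosure k Ω]

theorem RC.cycP (h : RC a p q) : CycF Ω (p * q) (a ^ 2 - 4 * (p * q)) p := by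
  haveI : IsSepClosed Ω := IsSepClosure.sep_closed k
  haveI : IsGalois k Ω := IsSepClosure.isGalois
  haveI : Normal k Ω := IsGalois.to_normal
  intro x y z hx hy hz n1 n2 n3
  obtain ⟨s, s1, s2, s3, s4, s5⟩ := cyc_fam (Ω := Ω) h.alt h.h0 h.spl 0 x y z hx hy hz n1 n2 n3
  refine ⟨s, s1, s2, s3, fun θ hθ m1 m2 m3 => ?_, s5 2 (by decide)⟩
  rw [map_mul, mul_eq_zero] at hθ
  rcases hθ with hθ | hθ
  · exact s4 θ hθ m1 m2 m3
  · exact s5 1 (by decide) θ hθ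

theorem RC.cycQ (h : RC a p q) : CycF Ω (p * q) (a ^ 2 - 4 * (p * q)) q := by
  haveI : IsSepClosed Ω := IsSepClosure.sep_closed k
  haveI : IsGalois k Ω := IsSepClosure.isGalois
  haveI : Normal k Ω := IsGalois.to_normal
  intro x y z hx hy hz n1 n2 n3
  obtain ⟨s, s1, s2, s3, s4, s5⟩ := cyc_fam (Ω := Ω) h.alt h.h0 h.spl 1 x y z hx hy hz n1 n2 n3
  refine ⟨s, s1, s2, s3, fun θ hθ m1 m2 m3 => ?_, s5 2 (by decide)⟩
  rw [map_mul, mul_eq_zero] at hθ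
  rcases hθ with hθ | hθ
  · exact s5 0 (by decide) θ hθ
  · exact s4 θ hθ m1 m2 m3

theorem RC.cycD (h : RC a p q) : CycF Ω (a ^ 2 - 4 * (p * q)) (p * q) (a ^ 2 - 4 * (p * q)) := by
  haveI : IsSepClosed Ω := IsSepClosure.sep_closed k
  haveI : IsGalois k Ω := IsSepClosure.isGalois
  haveI : Normal k Ω := IsGalois.to_normal
  intro x y z hx hy hz n1 n2 n3
  obtain ⟨s, s1, s2, s3, s4, s5⟩ := cyc_fam (Ω := Ω) h.alt h.h0 h.spl 2 x y z hx hy hz n1 n2 n3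
  refine ⟨s, s1, s2, s3, s4, fun θ hθ => ?_⟩
  rw [map_mul, mul_eq_zero] at hθ
  rcases hθ with hθ | hθ
  · exact s5 0 (by decide) θ hθ
  · exact s5 1 (by decide) θ hθ

variable {Ω}

theorem minF_of {P Q : k[X]} (h2 : (2 : Ω) ≠ 0) (sP : P.Separable) (sQ : Q.Separable)
    (hco : IsCoprime P Q) (hm : NonsquareMinor P Q) : MinF Ω P Q := by
  haveI : IsSepClosed Ω := IsSepClosure.sep_closed k
  obtain ⟨s, x, x', y, y', s1, s3, s4⟩ := min_acts (Ω := Ω) h2 sP sQ (fun θ η hθ hη e => by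
      rw [sub_eq_zero] at e
      subst e
      exact cop_ne hco hθ hη) (minG_of (mul_ne_zero sP.ne_zero sQ.ne_zero) hm)
  exact ⟨s, x, x', y, y', rs_root x, rs_root x', rs_root y, rs_root y', s1, s3, s4⟩

variable (Ω)

theorem RC.pureP (h : RC a p q) :
    PureB Ω (p * q) (a ^ 2 - 4 * (p * q)) p (a ^ 2 - 4 * (p * q)) := by
  haveI : IsSepClosed Ω := IsSepClosure.sep_closed k
  have h2 : (2 : Ω) ≠ 0 := two_k' h.h2
  exact pureB_of h2 h.S.cop (fun θ hθ => by rw [map_mul, hθ, zero_mul]) (fun θ hθ => hθ) h.pd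
    (h.cycP Ω) (h.cycD Ω) (five_of h.sp h.np) (five_of h.sd h.nd) (minF_of h2 h.sp h.sd h.pd h.mp)

theorem RC.pureQ (h : RC a p q) :
    PureB Ω (p * q) (a ^ 2 - 4 * (p * q)) q (a ^ 2 - 4 * (p * q)) := by
  haveI : IsSepClosed Ω := IsSepClosure.sep_closed k
  have h2 : (2 : Ω) ≠ 0 := two_k' h.h2
  exact pureB_of h2 h.S.cop (fun θ hθ => by rw [map_mul, hθ, mul_zero]) (fun θ hθ => hθ) h.qd
    (h.cycQ Ω) (h.cycD Ω) (five_of h.sq h.nq) (five_of h.sd h.nd) (minF_of h2 h.sq h.sd h.qd h.mq)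

end rc

end Pool.Agent.K9h16.RO
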