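import Pool.Agent.K9h16.RO.Desc

/-!
All the classes come from points, and the points modulo two.
-/

set_option autoImplicit false
set_option linter.all false

open Polynomial IsDedekindDomain WeierstrassCurve WeierstrassCurve.Affine
open scoped Classical Pointwise

namespace Pool.Agent.K9h16.RO

open Pool.Agent.TH115.GD Pool.Agent.K9h16.PT Pool.Agent.K9h16.QT Pool.Agent.R939.EI
  Pool.Agent.K9h16.BT

section main

variable {k k' K F : Type} [Field k] [Field k'] [Algebra k k'] [Field K] [Algebra k[X] K]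
    [Field F] [Algebra k'[X] F] [IsFractionRing k'[X] F] [Algebra K F]
    (hT : IsTower k k' K F) {a p q w : k[X]} (hC : RC a p q)
    {P₁ : Pt (Wc K a (p * q)) F} (h1 : IsP1 k' K a p q w P₁)

include hT hC in
theorem nons_T : ((Wc K a (p * q)).baseChange F).toAffine.Nonsingular 0 0 := by
  haveI := hT.fracK
  have inj := IsFractionRing.injective k[X] K
  have hb : algebraMap k[X] K (p * q) ≠ 0 := by
    rw [Ne, map_eq_zero_iff _ inj]
    exact hC.S.sb.ne_zero
  have hd : algebraMap k[X] K a ^ 2 - 4 * algebraMap k[X] K (p * q) ≠ 0 := by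
    have e : algebraMap k[X] K a ^ 2 - 4 * algebraMap k[X] K (p * q) =
        algebraMap k[X] K (a ^ 2 - 4 * (p * q)) := by
      rw [map_sub, map_mul (algebraMap k[X] K) 4, map_pow, map_ofNat]
    rw [e, Ne, map_eq_zero_iff _ inj]
    exact hC.sd.ne_zero
  have hn : ((Wc K a (p * q)).baseChange K).toAffine.Nonsingular 0 0 :=
    Pool.Agent.X243.Tate.nonsT (tt hC.h2) hb hd (by ring)
  obtain ⟨h', -⟩ := act_some (Wc K a (p * q)) (incl K K F) hn
  rw [map_zero] at h'
  exact h'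

include hT in
theorem act_T {α γ : Sep F}
    (hR : Roots (algebraMap k[X] K a) (algebraMap k[X] K (p * q)) (Sep F) α γ)
    (hn : ((Wc K a (p * q)).baseChange F).toAffine.Nonsingular 0 0) :
    act (Wc K a (p * q)) (incl K F (Sep F)) (Point.some 0 0 hn) = pt0 hR.E := by
  obtain ⟨h', e⟩ := act_some (Wc K a (p * q)) (incl K F (Sep F)) hn
  rw [e]
  apply Pool.Agent.K9h16.PT.some_congr
  · exact map_zero _
  · exact map_zero _

include hT hC h1 in
/-- **All the classes come from points, and the points modulo two.** -/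
theorem cmbR {H : Subgroup (Sep F ≃ₐ[K] Sep F)} (hH : H.Normal) (hfin : H.FiniteIndex)
    (hn : ((Wc K a (p * q)).baseChange F).toAffine.Nonsingular 0 0) :
    (∀ c : Cc (Wc K a (p * q)) F, PC k' (Wc K a (p * q)) H c →
      ∀ n : ℕ, ∃ (X R : Pt (Wc K a (p * q)) (Sep F)), 2 ^ n • R = X ∧
        (∀ τ ∈ H, act (Wc K a (p * q)) (ak τ) X = X) ∧
        ∀ σ, c n σ = act (Wc K a (p * q)) (rs K σ) R - R) ∧
    ∀ P : Pt (Wc K a (p * q)) F,
      (∀ τ ∈ H, act (Wc K a (p * q)) (ak τ) (act (Wc K a (p * q)) (incl K F (Sep F)) P) =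
          act (Wc K a (p * q)) (incl K F (Sep F)) P) →
      ∃ P₂ U V : Pt (Wc K a (p * q)) F, (P₂ = 0 ∨ P₂ = P₁) ∧ (U = 0 ∨ U = Point.some 0 0 hn) ∧
        P = P₂ + U + (V + V) := by
  haveI := hT.sep
  haveI := hT.fracK
  have hN : Preserves K F (Sep F) := preserves hT.map
  haveI : NeZero (2 : K) := ⟨tt hC.h2⟩
  have hE := enoughE hT hC hN hH hfin h1
  have hE' := enoughD hT hC hN hH hfin
  refine ⟨fun c hc n => all_pts hT hC.S hE hE' hc n, fun P hP => ?_⟩
  obtain ⟨α, γ, hR⟩ := exists_rts hT hC.S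
  have D2 := dat2 (K := K) hC.S
  obtain ⟨R, ⟨P₂, h3, e3⟩, R', e4, V, U, hU, e⟩ := sec_half hT hC.S hE hE' D2 P hP hR
  have e4' : R' 0 = 0 := by
    have h4 : R' 0 = act (Wc K (-2 * a) (a ^ 2 - 4 * (p * q))) (incl K F (Sep F)) 0 := e4
    rw [h4, map_zero]
  rw [e3, e4', map_zero, add_zero] at e
  have hT0 := act_T hT hR hn
  rcases hU with hU | hU
  · refine ⟨P₂, 0, V, h3, Or.inl rfl, ?_⟩
    apply Pool.Agent.TH115.GD.act_inj (Wc K a (p * q)) (incl K F (Sep F))
    rw [e, hU, map_add (act _ _) (P₂ + 0), map_add (act _ _) P₂ 0, map_zero]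
  · refine ⟨P₂, Point.some 0 0 hn, V, h3, Or.inr rfl, ?_⟩
    apply Pool.Agent.TH115.GD.act_inj (Wc K a (p * q)) (incl K F (Sep F))
    rw [e, hU, map_add (act _ _) (P₂ + Point.some 0 0 hn), map_add (act _ _) P₂ (Point.some 0 0 hn),
      hT0]

include hT hC h1 in
/-- `P₁` is not a double of a point, up to the points of order two. -/
theorem P1_not (hn : ((Wc K a (p * q)).baseChange F).toAffine.Nonsingular 0 0)
    {U V : Pt (Wc K a (p * q)) F} (hU : U = 0 ∨ U = Point.some 0 0 hn) :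
    P₁ ≠ U + (V + V) := by
  haveI := hT.sep
  haveI := hT.fracK
  haveI : NeZero (2 : K) := ⟨tt hC.h2⟩
  intro e
  obtain ⟨α, γ, hR⟩ := exists_rts hT hC.S
  have hβ0 : algebraMap K F (algebraMap k[X] K (p * q)) ≠ 0 := by
    rw [hT.map]
    simpa using (Polynomial.map_ne_zero_iff (algebraMap k k').injective).2 hC.S.sb.ne_zero
  have dne : ∀ P : Pt (Wc K a (p * q)) F,
      dT (algebraMap K F (algebraMap k[X] K (p * q))) P ≠ 0 := fun P =>
    Pool.Agent.K9h16.BT.dT_ne hβ0 P
  obtain ⟨u, hu, e1⟩ := dT_add' hR V V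
  obtain ⟨u', hu', e2⟩ := dT_add' hR U (V + V)
  rw [e1, ← e] at e2
  have key : ∀ θ : k', (if aeval θ p = 0 then (1 : ZMod 2) else 0) =
      par (pl θ) (dT (algebraMap K F (algebraMap k[X] K (p * q))) U) := by
    intro θ
    rw [← par_P1 hT hC h1 θ, e2]
    have e5 : u' ^ 2 * (dT (algebraMap K F (algebraMap k[X] K (p * q))) U *
        (u ^ 2 * (dT (algebraMap K F (algebraMap k[X] K (p * q))) V *
          dT (algebraMap K F (algebraMap k[X] K (p * q))) V))) =
        (u' * u * dT (algebraMap K F (algebraMap k[X] K (p * q))) V) ^ 2 *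
          dT (algebraMap K F (algebraMap k[X] K (p * q))) U := by ring
    rw [e5, par_sq _ (mul_ne_zero (mul_ne_zero hu' hu) (dne V)) (dne U)]
  obtain ⟨xp, -, -, hxp, -⟩ := five_of (Ω := k') hC.sp hC.np (0 : k') 0
  obtain ⟨xq, -, -, hxq, -⟩ := five_of (Ω := k') hC.sq hC.nq (0 : k') 0
  rcases hU with hU | hU
  · have h3 := key xp
    rw [if_pos hxp, hU] at h3
    have e6 : par (pl xp) (dT (algebraMap K F (algebraMap k[X] K (p * q)))
        (0 : Pt (Wc K a (p * q)) F)) = 0 := par_one _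
    rw [e6] at h3
    exact one_ne_zero h3
  · have h3 := key xq
    rw [if_neg (fun h => cop_ne hC.pq h hxq), hU] at h3
    have e6 : dT (algebraMap K F (algebraMap k[X] K (p * q)))
        (Point.some 0 0 hn : Pt (Wc K a (p * q)) F) =
        algebraMap k'[X] F ((p * q).map (algebraMap k k')) := by
      show (if (0 : F) = 0 then _ else _) = _
      rw [if_pos rfl, hT.map]
    rw [e6, par_sep hC.S.sb.map, if_pos] at h3
    · exact zero_ne_one h3
    · rw [IsRoot.def, eval_map_algebraMap, map_mul, hxq, mul_zero]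

include hT hC h1 in
/-- `P₁` is of infinite order. -/
theorem P1_inf (m : ℕ) (hm : 0 < m) : m • P₁ ≠ 0 := by
  haveI := hT.sep
  haveI := hT.fracK
  haveI : NeZero (2 : K) := ⟨tt hC.h2⟩
  intro h0
  have hn := nons_T (k' := k') (F := F) hT hC
  obtain ⟨α, γ, hR⟩ := exists_rts hT hC.S
  obtain ⟨i, m', hm', rfl⟩ := Nat.exists_eq_two_pow_mul_odd hm.ne'
  have h2 : act (Wc K a (p * q)) (incl K F (Sep F)) (m' • P₁) = 0 ∨
      act (Wc K a (p * q)) (incl K F (Sep F)) (m' • P₁) = pt0 hR.E := by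
    refine tors_Wc hT hC.S hR (m := i) (fun σ => rs_act_incl _ σ _) ?_
    rw [← map_nsmul, smul_smul, h0, map_zero]
  have h3 : m' • P₁ = 0 ∨ m' • P₁ = Point.some 0 0 hn := by
    have inj := Pool.Agent.TH115.GD.act_inj (Wc K a (p * q)) (incl K F (Sep F))
    rcases h2 with h2 | h2
    · exact Or.inl (inj (by rw [h2, map_zero]))
    · exact Or.inr (inj (by rw [h2, act_T hT hR hn]))
  obtain ⟨j, hj⟩ := hm'
  refine P1_not hT hC h1 hn (U := m' • P₁) (V := -(j • P₁)) h3 ?_
  rw [hj, add_smul, one_smul, two_mul, add_smul]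
  abel

include hT hC in
/-- **The sections over the separable closure of the constants.** -/
theorem sections1 (hw : a + p + q = w ^ 2) :
    ∃ (hn : ((Wc K a (p * q)).baseChange F).toAffine.Nonsingular 0 0)
      (h : ((Wc K a (p * q)).baseChange F).toAffine.Nonsingular
        (algebraMap k'[X] F (p.map (algebraMap k k')))
        (algebraMap k'[X] F ((p * w).map (algebraMap k k')))),
      (∀ m : ℕ, 0 < m → m • (Point.some _ _ h : Pt (Wc K a (p * q)) F) ≠ 0) ∧
      (∀ P : Pt (Wc K a (p * q)) F, ∃ (i j : ℤ) (V : Pt (Wc K a (p * q)) F),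
        P = i • (Point.some _ _ h : Pt (Wc K a (p * q)) F) + j • Point.some 0 0 hn + (V + V)) ∧
      (AddGroup.FG (Pt (Wc K a (p * q)) F) → ∃ m : ℕ, Odd m ∧ ∀ P : Pt (Wc K a (p * q)) F,
        ∃ i j : ℤ, m • P = i • (Point.some _ _ h : Pt (Wc K a (p * q)) F) +
          j • Point.some 0 0 hn) := by
  haveI := hT.sep
  haveI := hT.fracK
  haveI : IsGalois k k' := IsSepClosure.isGalois
  have hn := nons_T (k' := k') (F := F) hT hC
  obtain ⟨P₁, h1⟩ := exists_isP1 (k' := k') (F := F) hT hC hw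
  obtain ⟨h0, e0⟩ := id h1
  have h : ((Wc K a (p * q)).baseChange F).toAffine.Nonsingular
        (algebraMap k'[X] F (p.map (algebraMap k k')))
        (algebraMap k'[X] F ((p * w).map (algebraMap k k'))) := by
    rw [← hT.map, ← hT.map]
    exact h0
  have e1 : P₁ = (Point.some _ _ h : Pt (Wc K a (p * q)) F) := by
    rw [e0]
    apply Pool.Agent.K9h16.PT.some_congr
    · exact hT.map _
    · exact hT.map _
  refine ⟨hn, h, ?_⟩
  rw [← e1]
  have hmod : ∀ P : Pt (Wc K a (p * q)) F, ∃ (i j : ℤ) (V : Pt (Wc K a (p * q)) F),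
      P = i • P₁ + j • Point.some 0 0 hn + (V + V) := by
    intro P
    obtain ⟨S₁, hS₁⟩ := exists_coefP hT (Wc K a (p * q)) P
    haveI : Finite (S₁ : Set k') := Finset.finite_toSet _
    obtain ⟨M, hM⟩ : ∃ M : FiniteGaloisIntermediateField k k',
      M = FiniteGaloisIntermediateField.adjoin k (S₁ : Set k') := ⟨_, rfl⟩
    have hSM : ∀ x ∈ (S₁ : Set k'), x ∈ M.toIntermediateField := by
      rw [hM]
      exact fun x hx => FiniteGaloisIntermediateField.subset_adjoin k (S₁ : Set k') hx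
    haveI : FiniteDimensional k M.toIntermediateField := M.finiteDimensional
    haveI : IsGalois k M.toIntermediateField := M.isGalois
    haveI : Normal k M.toIntermediateField := inferInstance
    obtain ⟨-, hsec⟩ := cmbR hT hC h1 (HM_normal hT M.toIntermediateField)
      (HM_fin hT M.toIntermediateField) hn
    obtain ⟨P₂, U, V, h3, hU, e⟩ := hsec P (fun τ hτ => hS₁ τ (fun x hx => hτ x (hSM x hx)))
    have e3 : ∃ i : ℤ, P₂ = i • P₁ := by
      rcases h3 with h | h
      · exact ⟨0, by rw [h, zero_smul]⟩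
      · exact ⟨1, by rw [h, one_smul]⟩
    have e4 : ∃ j : ℤ, U = j • (Point.some 0 0 hn : Pt (Wc K a (p * q)) F) := by
      rcases hU with h | h
      · exact ⟨0, by rw [h, zero_smul]⟩
      · exact ⟨1, by rw [h, one_smul]⟩
    obtain ⟨i, e3⟩ := e3
    obtain ⟨j, e4⟩ := e4
    exact ⟨i, j, V, by rw [e, e3, e4]⟩
  refine ⟨P1_inf hT hC h1, hmod, fun hfg => ?_⟩
  obtain ⟨m, hm, hm'⟩ := Pool.Agent.N601.PB.odd_exponent (AddSubgroup.zmultiples P₁ ⊔
    AddSubgroup.zmultiples (Point.some 0 0 hn : Pt (Wc K a (p * q)) F)) hfg (fun P => by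
      obtain ⟨i, j, V, e⟩ := hmod P
      exact ⟨V, i • P₁ + j • Point.some 0 0 hn, AddSubgroup.mem_sup.2
        ⟨i • P₁, AddSubgroup.mem_zmultiples_iff.2 ⟨i, rfl⟩, _,
          AddSubgroup.mem_zmultiples_iff.2 ⟨j, rfl⟩, rfl⟩, by rw [e]; abel⟩)
  refine ⟨m, hm, fun P => ?_⟩
  obtain ⟨x, hx, y, hy, e⟩ := AddSubgroup.mem_sup.1 (hm' P)
  obtain ⟨i, rfl⟩ := AddSubgroup.mem_zmultiples_iff.1 hx
  obtain ⟨j, rfl⟩ := AddSubgroup.mem_zmultiples_iff.1 hy
  exact ⟨i, j, e.symm⟩

end main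

end Pool.Agent.K9h16.RO
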